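import Pool.Agent.J4H24.SA.Cnf
import Pool.Agent.J4H24.SR.Main

/-!
# The lower bound for unary Sherali–Adams over linear congruences
-/

namespace Pool.Agent.J4H24.SA

open Finset Pool.Agent.J4H24.PR Pool.Agent.J4H24.NS

set_option linter.unusedSectionVars false

/-- the number of sets of bounded size -/
lemma card_small {T : Type*} [Fintype T] [DecidableEq T] (F : Finset (Finset T)) (m : ℕ)
    (hF : ∀ C ∈ F, C.card ≤ m) : F.card ≤ (Fintype.card T + 1) ^ m := by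
  have h1 : F ⊆ (univ : Finset (Fin m → Option T)).image
      (fun f => univ.filter fun t => ∃ i, f i = some t) := by
    intro C hC
    refine Finset.mem_image.mpr ⟨fun i => C.toList[(i : ℕ)]?, mem_univ _, ?_⟩
    ext t
    rw [Finset.mem_filter, ← Finset.mem_toList (s := C), List.mem_iff_getElem?]
    constructor
    · rintro ⟨-, i, hi⟩
      exact ⟨i, hi⟩
    · rintro ⟨i, hi⟩
      have h2 : i < C.toList.length := by
        by_contra hc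
        rw [List.getElem?_eq_none (by omega)] at hi
        exact absurd hi (by simp)
      rw [Finset.length_toList] at h2
      exact ⟨mem_univ _, ⟨i, h2.trans_le (hF C hC)⟩, hi⟩
  refine (Finset.card_le_card h1).trans (Finset.card_image_le.trans ?_)
  rw [Finset.card_univ, Fintype.card_fun, Fintype.card_option, Fintype.card_fin]

/-- the rate for large expansion -/
lemma exists_rate {ρ : ℝ} (h0 : 3 / 4 ≤ ρ) (h1 : ρ < 1) :
    ∃ e0 : ℕ, ∀ e ≥ e0, Rate ρ ((1 + ρ) / 2) e := by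
  have h2 : ρ / ((1 + ρ) / 2) < 1 := by
    rw [div_lt_one (by linarith)]
    linarith
  have h3 : 0 ≤ ρ / ((1 + ρ) / 2) := div_nonneg (by linarith) (by linarith)
  have h4 := tendsto_pow_atTop_nhds_zero_of_lt_one h3 h2
  have h5 := h4.eventually (gt_mem_nhds (show (0 : ℝ) < 1 / 4 by norm_num))
  obtain ⟨e0, he0⟩ := Filter.eventually_atTop.mp h5
  refine ⟨e0, fun e he => ⟨by linarith, by linarith, by linarith, ?_⟩⟩
  have h6 := he0 e he
  rw [div_pow, div_lt_iff₀ (pow_pos (by linarith) _)] at h6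
  linarith

/-- polynomials against exponentials -/
lemma exists_poly (C : ℝ) (D : ℕ) : ∃ t0 : ℕ, ∀ t ≥ t0, C * ((t : ℝ) + 1) ^ D + 1 ≤ 4 ^ t := by
  have h1 := tendsto_pow_const_div_const_pow_of_one_lt D (show (1 : ℝ) < 4 by norm_num)
  have h2 := h1.eventually (gt_mem_nhds (show (0 : ℝ) < 1 / (4 * (4 * |C| + 4)) by positivity))
  obtain ⟨t0, ht0⟩ := Filter.eventually_atTop.mp h2
  refine ⟨t0, fun t ht => ?_⟩
  have h3 := ht0 (t + 1) (by omega)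
  push_cast at h3
  rw [div_lt_div_iff₀ (by positivity) (by positivity), one_mul] at h3
  have h4 : C ≤ |C| := le_abs_self C
  have h5 : (1 : ℝ) ≤ ((t : ℝ) + 1) ^ D := one_le_pow₀ (by
    have : (0 : ℝ) ≤ t := Nat.cast_nonneg _
    linarith)
  have h6 : C * ((t : ℝ) + 1) ^ D ≤ |C| * ((t : ℝ) + 1) ^ D :=
    mul_le_mul_of_nonneg_right h4 (by linarith)
  have h7 : (0 : ℝ) ≤ |C| * ((t : ℝ) + 1) ^ D := by positivity
  have h8 : (4 : ℝ) ^ (t + 1) = 4 * 4 ^ t := by rw [pow_succ]; ring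
  rw [h8] at h3
  have h9 : ((t : ℝ) + 1) ^ D * (4 * (4 * |C| + 4)) =
      16 * (|C| * ((t : ℝ) + 1) ^ D) + 16 * ((t : ℝ) + 1) ^ D := by ring
  rw [h9] at h3
  linarith

/-- the number of small sets of equations -/
lemma fam_bound {c T n t m r K : ℕ} (h2 : n < (t + 1) ^ T)
    (hmR : (m : ℝ) = 20 * 32 ^ c * (n : ℝ) ^ 2)
    (h4 : 20 * (32 : ℝ) ^ c * ((t : ℝ) + 1) ^ (2 * T) + 1 ≤ 4 ^ t) (hr : t * r ≤ K) :
    (Fam (Fin m) r).card ≤ 4 ^ K := by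
  refine (card_small _ r fun J hJ => mem_Fam.mp hJ).trans ?_
  rw [Fintype.card_fin]
  have h5 : m + 1 ≤ 4 ^ t := by
    have h6 : ((m + 1 : ℕ) : ℝ) ≤ ((4 ^ t : ℕ) : ℝ) := by
      push_cast
      refine le_trans ?_ h4
      rw [hmR, pow_mul' ((t : ℝ) + 1) 2 T]
      have h7 : (n : ℝ) ≤ ((t : ℝ) + 1) ^ T := by exact_mod_cast h2.le
      have h8 : (n : ℝ) ^ 2 ≤ (((t : ℝ) + 1) ^ T) ^ 2 := pow_le_pow_left₀ (Nat.cast_nonneg _) h7 2
      have h9 : (0 : ℝ) ≤ 20 * 32 ^ c := by positivity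
      have := mul_le_mul_of_nonneg_left h8 h9
      linarith
    exact_mod_cast h6
  calc (m + 1) ^ r ≤ (4 ^ t) ^ r := Nat.pow_le_pow_left h5 r
    _ = 4 ^ (t * r) := (pow_mul _ _ _).symm
    _ ≤ 4 ^ K := Nat.pow_le_pow_right (by norm_num) hr

/-- the final computation -/
lemma final_bound {n s t T : ℕ} {W δ η : ℝ} (hδ0 : 0 < δ) (hδ1 : δ < 1)
    (hn : 1 ≤ n) (h1 : t ^ T ≤ n) (hT : 10 ≤ (T : ℝ) * η) (hT0 : T ≠ 0)
    (hs : n ≤ 96 * (s * s) * t ^ 10)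
    (hL : 96 ≤ (Real.logb 2 δ) ^ 2 * (n : ℝ) ^ η) (hW : 1 ≤ W * δ ^ s) :
    (2 : ℝ) ^ ((n : ℝ) ^ (1 / 2 - η)) ≤ W := by
  have hnR : (1 : ℝ) ≤ n := by exact_mod_cast hn
  have hn0 : (0 : ℝ) < n := by linarith
  have hL0 : Real.logb 2 δ < 0 := Real.logb_neg (by norm_num) hδ0 hδ1
  -- `t ^ 10 ≤ n ^ η`
  have ht10 : (t : ℝ) ^ 10 ≤ (n : ℝ) ^ η := by
    have h1R : (t : ℝ) ^ T ≤ n := by exact_mod_cast h1
    have h2 : (t : ℝ) ≤ (n : ℝ) ^ ((T : ℝ)⁻¹) := by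
      have h3 := Real.rpow_le_rpow (by positivity) h1R (show (0 : ℝ) ≤ (T : ℝ)⁻¹ by positivity)
      rwa [Real.pow_rpow_inv_natCast (Nat.cast_nonneg _) hT0] at h3
    have hTR : (0 : ℝ) < T := by exact_mod_cast Nat.pos_of_ne_zero hT0
    calc (t : ℝ) ^ 10 ≤ ((n : ℝ) ^ ((T : ℝ)⁻¹)) ^ 10 := pow_le_pow_left₀ (Nat.cast_nonneg _) h2 10
      _ = (n : ℝ) ^ ((T : ℝ)⁻¹ * 10) := by
          rw [Real.rpow_mul hn0.le]
          norm_cast
      _ ≤ (n : ℝ) ^ η := by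
          refine Real.rpow_le_rpow_of_exponent_le hnR ?_
          rw [inv_mul_le_iff₀ hTR]
          exact hT
  -- the bound on `s`
  have hsR : (n : ℝ) ≤ 96 * ((s : ℝ) * s) * (n : ℝ) ^ η := by
    have h3 : (n : ℝ) ≤ 96 * ((s : ℝ) * s) * (t : ℝ) ^ 10 := by exact_mod_cast hs
    exact h3.trans (mul_le_mul_of_nonneg_left ht10 (by positivity))
  have h4 : (n : ℝ) ^ (1 / 2 - η) ≤ -Real.logb 2 δ * s := by
    refine (pow_le_pow_iff_left₀ (Real.rpow_nonneg hn0.le _) ?_ two_ne_zero).mp ?_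
    swap
    · have h5 : ((n : ℝ) ^ (1 / 2 - η)) ^ 2 = n / ((n : ℝ) ^ η * (n : ℝ) ^ η) := by
        rw [← Real.rpow_natCast, ← Real.rpow_mul hn0.le, ← Real.rpow_add hn0]
        rw [show (1 / 2 - η) * ((2 : ℕ) : ℝ) = 1 - (η + η) by push_cast; ring,
          Real.rpow_sub hn0, Real.rpow_one]
      have hp : (0 : ℝ) < (n : ℝ) ^ η := Real.rpow_pos_of_pos hn0 _
      rw [h5, div_le_iff₀ (by positivity)]
      have h6 : (-Real.logb 2 δ * s) ^ 2 * ((n : ℝ) ^ η * (n : ℝ) ^ η) =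
        ((Real.logb 2 δ) ^ 2 * (n : ℝ) ^ η) * (((s : ℝ) * s) * (n : ℝ) ^ η) := by ring
      rw [h6]
      refine hsR.trans ?_
      have h7 : 96 * (((s : ℝ) * s) * (n : ℝ) ^ η) ≤
        ((Real.logb 2 δ) ^ 2 * (n : ℝ) ^ η) * (((s : ℝ) * s) * (n : ℝ) ^ η) :=
        mul_le_mul_of_nonneg_right hL (by positivity)
      linarith
    · exact mul_nonneg (by linarith) (Nat.cast_nonneg _)
  have h5 : (2 : ℝ) ^ (-Real.logb 2 δ * s) = (δ ^ s)⁻¹ := by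
    rw [Real.rpow_mul (by norm_num), Real.rpow_neg (by norm_num),
      Real.rpow_logb (by norm_num) (by norm_num) hδ0, Real.rpow_natCast, inv_pow]
  have h6 : (2 : ℝ) ^ ((n : ℝ) ^ (1 / 2 - η)) ≤ (2 : ℝ) ^ (-Real.logb 2 δ * s) :=
    Real.rpow_le_rpow_of_exponent_le (by norm_num) h4
  refine h6.trans ?_
  rw [h5]
  have hpos : (0 : ℝ) < δ ^ s := pow_pos hδ0 _
  rw [inv_le_iff_one_le_mul₀ hpos]
  exact hW

/-- the sizes -/
lemma sizes {n n' t t9 K r s : ℕ} (ht : 0 < t) (ht9 : t9 = t ^ 9) (hK : K = n' / t9)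
    (hr : r = K / t) (hs : s = Nat.sqrt r) (hKt : t ≤ K) (hn' : n' = n / 3) (hn1 : 1 ≤ n') :
    n ≤ 96 * (s * s) * t ^ 10 := by
  have ht9pos : 0 < t9 := by rw [ht9]; positivity
  have hr1 : 1 ≤ r := by
    rw [hr, Nat.le_div_iff_mul_le ht]
    omega
  have hs1 : 1 ≤ s := by
    rw [hs]
    exact Nat.sqrt_pos.mpr hr1
  have h3 : n' < (K + 1) * t9 := by
    rw [hK, mul_comm]
    exact Nat.lt_mul_div_succ n' ht9pos
  have h4 : K < (r + 1) * t := by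
    rw [hr, mul_comm]
    exact Nat.lt_mul_div_succ K ht
  have h5 : r < (s + 1) * (s + 1) := by
    rw [hs]
    exact Nat.lt_succ_sqrt r
  have h6 : (s + 1) * (s + 1) ≤ (2 * s) * (2 * s) := Nat.mul_le_mul (by omega) (by omega)
  have h8 : r ≤ 4 * (s * s) := by
    have : (2 * s) * (2 * s) = 4 * (s * s) := by ring
    omega
  have h9 : K ≤ 8 * (s * s) * t := by
    calc K ≤ (r + 1) * t := h4.le
      _ ≤ (2 * r) * t := Nat.mul_le_mul_right _ (by omega)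
      _ ≤ (2 * (4 * (s * s))) * t := Nat.mul_le_mul_right _ (Nat.mul_le_mul_left _ h8)
      _ = 8 * (s * s) * t := by ring
  have h10 : n' ≤ 16 * (s * s) * t ^ 10 := by
    calc n' ≤ (K + 1) * t9 := h3.le
      _ ≤ (2 * K) * t9 := Nat.mul_le_mul_right _ (by omega)
      _ ≤ (2 * (8 * (s * s) * t)) * t9 := Nat.mul_le_mul_right _ (Nat.mul_le_mul_left _ h9)
      _ = 16 * (s * s) * t ^ 10 := by rw [ht9]; ring
  have h11 : n ≤ 6 * n' := by omega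
  calc n ≤ 6 * n' := h11
    _ ≤ 6 * (16 * (s * s) * t ^ 10) := Nat.mul_le_mul_left _ h10
    _ = 96 * (s * s) * t ^ 10 := by ring

/-- the main theorem -/
theorem sa_main (q : ℕ) [NeZero q] (η : ℝ) (hη : 0 < η) : ∃ k C N : ℕ, ∀ n ≥ N,
    ∃ F : Finset (Finset (Fin n × Bool)),
      (∀ y, ∃ D ∈ F, Fals D y) ∧ (∀ D ∈ F, D.card ≤ k) ∧ F.card ≤ C * n ^ 2 ∧
      ∀ (a a' : ℕ) (l : Fin a → ℝ) (S : Fin a → Set (Fin n → Bool)) (m : Fin a' → ℝ)
        (T : Fin a' → Set (Fin n → Bool)),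
        (∀ i, LinSet q (S i) ∧ ∃ D ∈ F, ∀ x ∈ S i, Fals D x) →
        (∀ j, LinSet q (T j) ∧ 0 ≤ m j) →
        (∀ x, ∑ i, l i * (S i).indicator (fun _ => (1 : ℝ)) x =
          1 + ∑ j, m j * (T j).indicator (fun _ => (1 : ℝ)) x) →
        (2 : ℝ) ^ ((n : ℝ) ^ (1 / 2 - η)) ≤ ∑ i, |l i| + ∑ j, m j := by
  classical
  obtain ⟨ρ, hρ⟩ := exists_rho q
  obtain ⟨e0, he0⟩ := exists_rate hρ.ge hρ.lt
  obtain ⟨d, hd, hde, hdη⟩ : ∃ d : ℕ, 9 ≤ d ∧ e0 ≤ d ∧ 10 ≤ ((4 * d + 4 : ℕ) : ℝ) * η := by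
    obtain ⟨d0, hd0⟩ := exists_nat_ge (10 / η)
    refine ⟨d0 + 9 + e0, by omega, by omega, ?_⟩
    rw [div_le_iff₀ hη] at hd0
    refine hd0.trans (mul_le_mul_of_nonneg_right ?_ hη.le)
    push_cast
    have : (0 : ℝ) ≤ d0 := Nat.cast_nonneg _
    have : (0 : ℝ) ≤ e0 := Nat.cast_nonneg _
    linarith
  obtain ⟨c, hc⟩ : ∃ c : ℕ, c = 12 * d + 17 := ⟨_, rfl⟩
  obtain ⟨e, he⟩ : ∃ e : ℕ, e = c - 2 * d := ⟨_, rfl⟩
  have hR : Rate ρ ((1 + ρ) / 2) e := he0 e (by omega)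
  obtain ⟨T1, hT1⟩ := exists_nat_ge
    (20 * (32 : ℝ) ^ c * 4 ^ (4 * d + 4) * 2 ^ c * (2 * c) ^ (9 * d + 17) * (2 * 32 ^ c))
  obtain ⟨T2, hT2⟩ := exists_nat_ge
    (20 * (32 : ℝ) ^ c * 4 ^ (4 * d + 4) * 3 ^ c * (2 * c) ^ d * 12)
  obtain ⟨T3, hT3⟩ := exists_poly (20 * (32 : ℝ) ^ c) (2 * (4 * d + 4))
  obtain ⟨T, hT⟩ : ∃ T : ℕ, T = T1 + T2 + T3 + 8 * (c + 4) := ⟨_, rfl⟩
  -- the base of the bound
  obtain ⟨δ, hδ⟩ : ∃ δ : ℝ, δ = (1 + (1 + ρ) / 2) / 2 := ⟨_, rfl⟩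
  have hδ0 : 0 < δ := by
    have := hρ.ge
    linarith
  have hδ1 : δ < 1 := by
    have := hρ.lt
    linarith
  have hL0 : Real.logb 2 δ < 0 := Real.logb_neg (by norm_num) hδ0 hδ1
  have hL2 : 0 < (Real.logb 2 δ) ^ 2 := by
    have := mul_pos_of_neg_of_neg hL0 hL0
    rwa [sq]
  obtain ⟨N1, hN1⟩ : ∃ N1 : ℕ, ∀ n ≥ N1, 96 ≤ (Real.logb 2 δ) ^ 2 * (n : ℝ) ^ η := by
    have h1 := (tendsto_rpow_atTop hη).comp tendsto_natCast_atTop_atTop
    obtain ⟨N1, hN1⟩ := Filter.eventually_atTop.mp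
      (h1.eventually_ge_atTop (96 / (Real.logb 2 δ) ^ 2))
    refine ⟨N1, fun n hn => ?_⟩
    have h2 := hN1 n hn
    simp only [Function.comp_apply] at h2
    rw [div_le_iff₀ hL2] at h2
    linarith
  refine ⟨3 * c, 64 ^ c * (20 * 32 ^ c), 3 * T ^ (4 * d + 4) + N1, fun n hn => ?_⟩
  obtain ⟨n', hn'⟩ : ∃ n' : ℕ, n' = n / 3 := ⟨_, rfl⟩
  have hn'T : T ^ (4 * d + 4) ≤ n' := by omega
  obtain ⟨t, h1, h2⟩ := SR.exists_root n' (4 * d + 4) (by omega)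
  have ht : T ≤ t := by
    by_contra hcon
    push Not at hcon
    have h3 : (t + 1) ^ (4 * d + 4) ≤ T ^ (4 * d + 4) := Nat.pow_le_pow_left hcon _
    omega
  have hmR : ((20 * 32 ^ c * n' ^ 2 : ℕ) : ℝ) = 20 * 32 ^ c * (n' : ℝ) ^ 2 := by
    push_cast
    ring
  obtain ⟨m, hm⟩ : ∃ m : ℕ, m = 20 * 32 ^ c * n' ^ 2 := ⟨_, rfl⟩
  rw [← hm] at hmR
  have ht1 : (T1 : ℝ) ≤ t := by exact_mod_cast (show T1 ≤ t by omega)
  have ht2 : (T2 : ℝ) ≤ t := by exact_mod_cast (show T2 ≤ t by omega)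
  obtain ⟨A, b, hRig, hE⟩ := SR.exists_system hd hc h1 h2 hmR (by omega) (hT1.trans ht1)
    (hT2.trans ht2)
  -- the parameters
  have htpos : 0 < t := by omega
  obtain ⟨t9, ht9⟩ : ∃ t9, t9 = t ^ 9 := ⟨_, rfl⟩
  rw [← ht9] at hE
  have ht9pos : 0 < t9 := by rw [ht9]; positivity
  obtain ⟨K, hK⟩ : ∃ K, K = n' / t9 := ⟨_, rfl⟩
  rw [← hK, ← he] at hE
  obtain ⟨r, hr⟩ : ∃ r, r = K / t := ⟨_, rfl⟩
  obtain ⟨s, hs⟩ : ∃ s, s = Nat.sqrt r := ⟨_, rfl⟩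
  have hKt : t ≤ K := by
    rw [hK, Nat.le_div_iff_mul_le ht9pos, ht9]
    refine le_trans ?_ h1
    rw [← pow_succ']
    exact Nat.pow_le_pow_right htpos (by omega)
  have hr1 : 1 ≤ r := by
    rw [hr, Nat.le_div_iff_mul_le htpos]
    omega
  have hs1 : 1 ≤ s := by
    rw [hs]
    exact Nat.sqrt_pos.mpr hr1
  have htr : t * r ≤ K := by
    rw [hr]
    exact Nat.mul_div_le K t
  have hrK : r ≤ K := by
    rw [hr]
    exact Nat.div_le_self _ _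
  have hss : s * s ≤ r := by
    rw [hs]
    exact Nat.sqrt_le r
  have he1 : 1 ≤ e := by omega
  have hse : s * s ≤ e * r := hss.trans (Nat.le_mul_of_pos_left _ he1)
  -- the injection of the blocks
  obtain ⟨g⟩ : Nonempty ((Fin n' × Fin 3) ↪ Fin n) :=
    Function.Embedding.nonempty_of_card_le (by
      rw [Fintype.card_prod, Fintype.card_fin, Fintype.card_fin, Fintype.card_fin]
      omega)
  refine ⟨frm3 g A b, ?_, fun D hD => frm3_width hRig.card hD, ?_, ?_⟩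
  · refine frm3_unsat fun y => ?_
    obtain ⟨i, -, hi⟩ := hRig.h2 univ (by
      rw [Finset.card_univ, Fintype.card_fin]
      exact Nat.div_le_self _ _) y
    exact ⟨i, hi⟩
  · refine (frm3_card hRig.card).trans ?_
    rw [Fintype.card_fin, hm, mul_assoc (64 ^ c)]
    refine Nat.mul_le_mul_left _ (Nat.mul_le_mul_left _ (Nat.pow_le_pow_left ?_ 2))
    omega
  · intro a a' l S m' T' hS hT' hid
    have hn'1 : 1 ≤ n' := le_trans (Nat.one_le_pow _ _ htpos) h1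
    have hn'n : n' ≤ n := by rw [hn']; exact Nat.div_le_self _ _
    refine final_bound (T := 4 * d + 4) (t := t) (s := s) hδ0 hδ1 (hn'1.trans hn'n)
      (h1.trans hn'n) hdη (Nat.succ_ne_zero _) (sizes htpos ht9 hK hr hs hKt hn' hn'1)
      (hN1 n (le_trans (Nat.le_add_left _ _) hn)) ?_
    · rw [hδ]
      refine core_sa (V := Fin n') (ι := Fin m) (A := A) (b := b) hρ hR hE he1 hrK
        (fam_bound h2 hmR (hT3 t (by omega)) htr) hse l m' (fun j => (hT' j).2)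
        (fun i x => (S i).indicator (fun _ => (1 : ℝ)) (ax g x))
        (fun j x => (T' j).indicator (fun _ => (1 : ℝ)) (ax g x))
        (fun i => phase_of_linSet g.injective (hS i).1)
        (fun j => phase_of_linSet g.injective (hT' j).1) ?_ (fun x => hid (ax g x))
      intro i
      obtain ⟨D, hD, hfal⟩ := (hS i).2
      obtain ⟨i0, z, hz, rfl⟩ := mem_frm3.mp hD
      refine ⟨i0, fun x hx => ep_of_fals g.injective hz (hfal _ ?_)⟩
      by_contra hcon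
      exact hx (Set.indicator_of_notMem hcon _)

end Pool.Agent.J4H24.SA
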