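import Pool.Agent.J4H24.NS.Defs

/-!
# Systems of linear congruences on the Boolean assignments: definitions
-/

namespace Pool.Agent.J4H24.SA

/-- `S` is the set of the Boolean solutions of a system of linear congruences whose moduli divide
`q` -/
def LinSet (q : ℕ) {n : ℕ} (S : Set (Fin n → Bool)) : Prop :=
  ∃ (r : ℕ) (M : Fin r → Fin n → ℤ) (b : Fin r → ℤ) (m : Fin r → ℕ), (∀ j, m j ∣ q) ∧
    ∀ x, x ∈ S ↔ ∀ j, (m j : ℤ) ∣ (∑ v, if x v then M j v else 0) - b j

end Pool.Agent.J4H24.SA
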