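import Pool.Agent.J4H24.SA.Core
import Pool.Agent.J4H24.SA.Defs
import Pool.Agent.J4H24.PR.Exist

/-!
# The formula, and systems of congruences as averages of phases
-/

namespace Pool.Agent.J4H24.SA

open Finset Pool.Agent.J4H24.PR Pool.Agent.J4H24.NS

set_option linter.unusedSectionVars false

variable {V ι : Type*} [Fintype V] [DecidableEq V] [Fintype ι] [DecidableEq ι]
  {A : ι → V → ZMod 2} {b : ι → ZMod 2} {n : ℕ}

/-- the bits of a block -/
def bit (y : B3) (k : Fin 3) : Bool := ![y.1, y.2.1, y.2.2] k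

lemma bit_ext {y z : B3} (h : ∀ k, bit y k = bit z k) : y = z := by
  have h0 := h 0
  have h1 := h 1
  have h2 := h 2
  simp only [bit, Matrix.cons_val] at h0 h1 h2
  exact Prod.ext h0 (Prod.ext h1 h2)

/-- the assignment of the variables of the formula -/
noncomputable def ax (e : V × Fin 3 → Fin n) (x : V → B3) (w : Fin n) : Bool :=
  open Classical in decide (∃ p, e p = w ∧ bit (x p.1) p.2 = true)

lemma ax_e {e : V × Fin 3 → Fin n} (he : Function.Injective e) (x : V → B3) (p : V × Fin 3) :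
    ax e x (e p) = bit (x p.1) p.2 := by
  unfold ax
  cases h : bit (x p.1) p.2
  · rw [decide_eq_false_iff_not]
    rintro ⟨p', h1, h2⟩
    rw [he h1, h] at h2
    exact absurd h2 (by simp)
  · rw [decide_eq_true_iff]
    exact ⟨p, rfl, h⟩

lemma ax_out {e : V × Fin 3 → Fin n} (x : V → B3) {w : Fin n} (hw : w ∉ Set.range e) :
    ax e x w = false := by
  unfold ax
  rw [decide_eq_false_iff_not]
  rintro ⟨p, h1, -⟩
  exact hw ⟨p, h1⟩

/-- a clause of the formula -/
def cl3 (e : V × Fin 3 → Fin n) (A : ι → V → ZMod 2) (i : ι) (x : V → B3) :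
    Finset (Fin n × Bool) :=
  (vars A i ×ˢ (univ : Finset (Fin 3))).image fun p => (e p, !bit (x p.1) p.2)

/-- the formula -/
def frm3 (e : V × Fin 3 → Fin n) (A : ι → V → ZMod 2) (b : ι → ZMod 2) :
    Finset (Finset (Fin n × Bool)) :=
  ((univ : Finset (ι × (V → B3))).filter fun p => PR.val A p.1 (gx p.2) ≠ b p.1).image
    fun p => cl3 e A p.1 p.2

lemma mem_frm3 {e : V × Fin 3 → Fin n} {C : Finset (Fin n × Bool)} :
    C ∈ frm3 e A b ↔ ∃ i x, PR.val A i (gx x) ≠ b i ∧ cl3 e A i x = C := by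
  unfold frm3
  rw [Finset.mem_image]
  constructor
  · rintro ⟨⟨i, x⟩, h1, h2⟩
    exact ⟨i, x, (Finset.mem_filter.mp h1).2, h2⟩
  · rintro ⟨i, x, h1, h2⟩
    exact ⟨⟨i, x⟩, Finset.mem_filter.mpr ⟨mem_univ _, h1⟩, h2⟩

lemma frm3_width {e : V × Fin 3 → Fin n} {c : ℕ} (hc : ∀ i, (vars A i).card ≤ c)
    {C : Finset (Fin n × Bool)} (hC : C ∈ frm3 e A b) : C.card ≤ 3 * c := by
  obtain ⟨i, x, -, rfl⟩ := mem_frm3.mp hC
  unfold cl3
  refine Finset.card_image_le.trans ?_
  rw [Finset.card_product, Finset.card_univ, Fintype.card_fin]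
  have := hc i
  omega

lemma frm3_card {e : V × Fin 3 → Fin n} {c : ℕ} (hc : ∀ i, (vars A i).card ≤ c) :
    (frm3 e A b).card ≤ 64 ^ c * Fintype.card ι := by
  have h1 : frm3 e A b ⊆ univ.biUnion fun i : ι =>
      (((vars A i ×ˢ (univ : Finset (Fin 3))).image e) ×ˢ (univ : Finset Bool)).powerset := by
    intro C hC
    obtain ⟨i, x, -, rfl⟩ := mem_frm3.mp hC
    rw [Finset.mem_biUnion]
    refine ⟨i, mem_univ _, ?_⟩
    rw [Finset.mem_powerset]
    intro l hl
    obtain ⟨p, hp, rfl⟩ := Finset.mem_image.mp hl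
    rw [Finset.mem_product]
    exact ⟨Finset.mem_image_of_mem _ hp, mem_univ _⟩
  refine (Finset.card_le_card h1).trans (Finset.card_biUnion_le.trans ?_)
  have h2 : ∀ i ∈ (univ : Finset ι), ((((vars A i ×ˢ (univ : Finset (Fin 3))).image e) ×ˢ
      (univ : Finset Bool)).powerset).card ≤ 64 ^ c := by
    intro i _
    rw [Finset.card_powerset, Finset.card_product, Finset.card_univ, Fintype.card_bool]
    have h3 : ((vars A i ×ˢ (univ : Finset (Fin 3))).image e).card ≤ 3 * c := by
      refine Finset.card_image_le.trans ?_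
      rw [Finset.card_product, Finset.card_univ, Fintype.card_fin]
      have := hc i
      omega
    calc 2 ^ (((vars A i ×ˢ (univ : Finset (Fin 3))).image e).card * 2) ≤ 2 ^ (3 * c * 2) :=
          Nat.pow_le_pow_right (by norm_num) (Nat.mul_le_mul_right _ h3)
      _ = 64 ^ c := by
          rw [show 3 * c * 2 = 6 * c by ring, pow_mul]
          norm_num
  refine (Finset.sum_le_card_nsmul _ _ _ h2).trans ?_
  rw [Finset.card_univ, smul_eq_mul, mul_comm]

lemma frm3_unsat {e : V × Fin 3 → Fin n} (hb : ∀ y : V → Bool, ∃ i, PR.val A i y ≠ b i)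
    (y : Fin n → Bool) : ∃ C ∈ frm3 e A b, Fals C y := by
  obtain ⟨x, hx⟩ : ∃ x : V → B3, x = fun v => (y (e (v, 0)), y (e (v, 1)), y (e (v, 2))) :=
    ⟨_, rfl⟩
  obtain ⟨i, hi⟩ := hb (gx x)
  refine ⟨cl3 e A i x, mem_frm3.mpr ⟨i, x, hi, rfl⟩, ?_⟩
  intro l hl
  obtain ⟨⟨v, k⟩, -, rfl⟩ := Finset.mem_image.mp hl
  simp only
  have h1 : bit (x v) k = y (e (v, k)) := by
    rw [hx]
    fin_cases k <;> rfl
  rw [h1]
  cases y (e (v, k)) <;> simp

/-- the assignments that falsify a clause violate the equation -/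
lemma ep_of_fals {e : V × Fin 3 → Fin n} (he : Function.Injective e) {i : ι} {z : V → B3}
    (hz : PR.val A i (gx z) ≠ b i) {x : V → B3} (hx : Fals (cl3 e A i z) (ax e x)) :
    ep A b {i} x = -1 := by
  have h1 : ∀ v, A i v ≠ 0 → x v = z v := by
    intro v hv
    refine bit_ext fun k => ?_
    have h2 := hx (e (v, k), !bit (z v) k) (Finset.mem_image.mpr ⟨(v, k), by
      rw [Finset.mem_product]
      exact ⟨mem_vars.mpr hv, mem_univ _⟩, rfl⟩)
    simp only at h2
    rw [ax_e he] at h2
    cases h3 : bit (x v) k <;> cases h4 : bit (z v) k <;> simp [h3, h4] at h2 ⊢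
  have h2 : PR.val A i (gx x) = PR.val A i (gx z) := by
    unfold PR.val
    refine Finset.sum_congr rfl fun v _ => ?_
    by_cases hv : A i v = 0
    · rw [hv, zero_mul, zero_mul]
    · unfold gx
      rw [h1 v hv]
  unfold ep
  rw [T_singleton, h2, Finset.sum_singleton]
  have h3 : PR.val A i (gx z) + b i = 1 := by
    have : ∀ p r : ZMod 2, p ≠ r → p + r = 1 := by decide
    exact this _ _ hz
  rw [h3]
  simp [sg]

lemma map_sum_prod {G α : Type*} [AddCommGroup G] (ψ : AddChar G ℂ) (f : α → G) (s : Finset α) :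
    ψ (∑ i ∈ s, f i) = ∏ i ∈ s, ψ (f i) := by
  classical
  induction s using Finset.induction_on with
  | empty => rw [Finset.sum_empty, Finset.prod_empty, AddChar.map_zero_eq_one]
  | insert a s ha ih => rw [Finset.sum_insert ha, Finset.prod_insert ha, AddChar.map_add_eq_mul, ih]

/-- the sum of the primitive characters -/
lemma sum_char_pi {q : ℕ} [NeZero q] {r : ℕ} (y : Fin r → ZMod q) :
    ∑ a : Fin r → ZMod q, (ZMod.stdAddChar (∑ j, a j * y j) : ℂ) =
      if ∀ j, y j = 0 then (Fintype.card (Fin r → ZMod q) : ℂ) else 0 := by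
  have h1 : ∀ a : Fin r → ZMod q, (ZMod.stdAddChar (∑ j, a j * y j) : ℂ) =
      ∏ j, ZMod.stdAddChar (a j * y j) := fun a => by
    rw [map_sum_prod]
  simp_rw [h1]
  have h2 : ∑ a : Fin r → ZMod q, ∏ j, (ZMod.stdAddChar (a j * y j) : ℂ) =
      ∏ j, ∑ t : ZMod q, (ZMod.stdAddChar (t * y j) : ℂ) := by
    rw [Finset.prod_univ_sum]
    simp only [Fintype.piFinset_univ]
  rw [h2]
  have h3 : ∀ j, ∑ t : ZMod q, (ZMod.stdAddChar (t * y j) : ℂ) =
      if y j = 0 then (Fintype.card (ZMod q) : ℂ) else 0 := fun j => by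
    rw [AddChar.sum_mulShift (y j) (ZMod.isPrimitive_stdAddChar q)]
    split_ifs <;> simp
  simp_rw [h3]
  by_cases h : ∀ j, y j = 0
  · rw [if_pos h]
    simp only [h, if_true]
    rw [Finset.prod_const, Finset.card_univ, Fintype.card_fin, Fintype.card_fun, Fintype.card_fin]
    push_cast
    rfl
  · rw [if_neg h]
    push Not at h
    obtain ⟨j, hj⟩ := h
    exact Finset.prod_eq_zero (mem_univ j) (if_neg hj)

/-- the indicator function of a system of congruences is an average of phases -/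
lemma phase_of_linSet {q : ℕ} [NeZero q] {e : V × Fin 3 → Fin n} (he : Function.Injective e)
    {S : Set (Fin n → Bool)} (hS : LinSet q S) :
    Phase q (fun x : V → B3 => S.indicator (fun _ => (1 : ℝ)) (ax e x)) := by
  obtain ⟨r, M, β, m, hm, hS⟩ := hS
  -- the coefficients modulo `q`
  obtain ⟨t, ht⟩ : ∃ t : Fin r → ℤ, ∀ j, (q : ℤ) = t j * (m j : ℤ) :=
    ⟨fun j => ((q / m j : ℕ) : ℤ), fun j => by
      show (q : ℤ) = ((q / m j : ℕ) : ℤ) * (m j : ℤ)
      exact_mod_cast (Nat.div_mul_cancel (hm j)).symm⟩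
  obtain ⟨N, hN⟩ : ∃ N : Fin r → V → Fin 3 → ZMod q,
    N = fun j v k => (t j : ZMod q) * (M j (e (v, k)) : ZMod q) := ⟨_, rfl⟩
  obtain ⟨γ, hγ⟩ : ∃ γ : Fin r → ZMod q, γ = fun j => (t j : ZMod q) * (β j : ZMod q) :=
    ⟨_, rfl⟩
  have hq : q ≠ 0 := NeZero.ne q
  have hmem : ∀ x : V → B3, ax e x ∈ S ↔
      ∀ j, (∑ v, ∑ k, N j v k * ib q (bit (x v) k)) - γ j = 0 := by
    intro x
    rw [hS]
    refine forall_congr' fun j => ?_
    have h1 : (∑ w, if ax e x w then M j w else 0) =
        ∑ p : V × Fin 3, if bit (x p.1) p.2 then M j (e p) else 0 := by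
      symm
      refine Fintype.sum_of_injective e he _ _ ?_ ?_
      · intro w hw
        rw [ax_out x hw]
        simp
      · intro p
        rw [ax_e he]
    rw [h1]
    have h2 : (∑ v, ∑ k, N j v k * ib q (bit (x v) k)) - γ j =
        ((t j * ((∑ p : V × Fin 3, if bit (x p.1) p.2 then M j (e p) else 0) - β j) : ℤ) :
          ZMod q) := by
      rw [hN, hγ]
      push_cast
      rw [mul_sub, Finset.mul_sum, Fintype.sum_prod_type]
      congr 1
      refine Finset.sum_congr rfl fun v _ => Finset.sum_congr rfl fun k _ => ?_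
      unfold ib
      split_ifs <;> simp
    rw [h2, ZMod.intCast_zmod_eq_zero_iff_dvd]
    have h3 := ht j
    have h4 : t j ≠ 0 := by
      intro h0
      rw [h0, zero_mul] at h3
      exact hq (by exact_mod_cast h3)
    rw [h3]
    exact (mul_dvd_mul_iff_left h4).symm
  refine ⟨r, ⟨⟨fun a v k => ∑ j, a j * N j v k, ?_⟩, ?_⟩,
    ⟨fun a => ZMod.stdAddChar (∑ j, a j * -γ j), ?_, ?_⟩, ?_⟩
  · funext v k
    simp
  · intro a a'
    funext v k
    simp only [Pi.add_apply]
    rw [← Finset.sum_add_distrib]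
    exact Finset.sum_congr rfl fun j _ => by ring
  · simp
  · intro a a'
    rw [← AddChar.map_add_eq_mul, ← Finset.sum_add_distrib]
    congr 1
    refine Finset.sum_congr rfl fun j _ => ?_
    simp only [Pi.add_apply]
    ring
  · intro x
    have h1 : ∀ a : Fin r → ZMod q, chx (V := V) (q := q)
        ⟨⟨fun a v k => ∑ j, a j * N j v k, by funext v k; simp⟩, by
          intro a a'
          funext v k
          simp only [Pi.add_apply]
          rw [← Finset.sum_add_distrib]
          exact Finset.sum_congr rfl fun j _ => by ring⟩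
        ⟨fun a => ZMod.stdAddChar (∑ j, a j * -γ j), by simp, by
          intro a a'
          rw [← AddChar.map_add_eq_mul, ← Finset.sum_add_distrib]
          congr 1
          refine Finset.sum_congr rfl fun j _ => ?_
          simp only [Pi.add_apply]
          ring⟩ x a =
        (ZMod.stdAddChar (∑ j, a j * ((∑ v, ∑ k, N j v k * ib q (bit (x v) k)) - γ j)) : ℂ) := by
      intro a
      unfold chx
      have h2 : ∏ v, ph (fun k => ∑ j, a j * N j v k) (x v) =
          (ZMod.stdAddChar (∑ v, ∑ k, (∑ j, a j * N j v k) * ib q (bit (x v) k)) : ℂ) := by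
        rw [map_sum_prod]
        refine Finset.prod_congr rfl fun v _ => ?_
        unfold ph
        rw [Fin.sum_univ_three]
        rfl
      show ZMod.stdAddChar (∑ j, a j * -γ j) * ∏ v, ph (fun k => ∑ j, a j * N j v k) (x v) = _
      rw [h2, ← AddChar.map_add_eq_mul]
      congr 1
      have h3 : ∑ v, ∑ k, (∑ j, a j * N j v k) * ib q (bit (x v) k) =
          ∑ j, a j * ∑ v, ∑ k, N j v k * ib q (bit (x v) k) := by
        have h4 : ∀ v, ∑ k, (∑ j, a j * N j v k) * ib q (bit (x v) k) =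
            ∑ j, ∑ k, a j * (N j v k * ib q (bit (x v) k)) := by
          intro v
          rw [Finset.sum_comm]
          refine Finset.sum_congr rfl fun k _ => ?_
          rw [Finset.sum_mul]
          exact Finset.sum_congr rfl fun j _ => by ring
        rw [Finset.sum_congr rfl fun v _ => h4 v, Finset.sum_comm]
        refine Finset.sum_congr rfl fun j _ => ?_
        rw [Finset.mul_sum]
        refine Finset.sum_congr rfl fun v _ => ?_
        rw [Finset.mul_sum]
      rw [h3, ← Finset.sum_add_distrib]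
      exact Finset.sum_congr rfl fun j _ => by ring
    rw [Finset.sum_congr rfl fun a _ => h1 a, sum_char_pi]
    show (Fintype.card (Fin r → ZMod q) : ℂ) *
      ((S.indicator (fun _ => (1 : ℝ)) (ax e x) : ℝ) : ℂ) = _
    by_cases hx : ax e x ∈ S
    · rw [if_pos ((hmem x).mp hx), Set.indicator_of_mem hx]
      simp
    · rw [if_neg (fun hc => hx ((hmem x).mpr hc)), Set.indicator_of_notMem hx]
      simp

end Pool.Agent.J4H24.SA
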