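import Pool.Agent.J4H24.SA.Func

/-!
# The pseudo-expectation of averages of phases
-/

namespace Pool.Agent.J4H24.SA

open Finset Pool.Agent.J4H24.PR

set_option linter.unusedSectionVars false

variable {V ι : Type*} [Fintype V] [DecidableEq V] [Fintype ι] [DecidableEq ι]
  {A : ι → V → ZMod 2} {b : ι → ZMod 2} {q : ℕ} [NeZero q]
  {H : Type*} [AddCommGroup H] [Fintype H] [DecidableEq H]

/-- the phase of an element of the dual group -/
noncomputable def chx (c : H →+ (V → Fin 3 → ZMod q)) (κ : AddChar H ℂ) (x : V → B3) (a : H) : ℂ :=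
  κ a * ∏ v, ph (c a v) (x v)

lemma ph_add (c c' : Fin 3 → ZMod q) (y : B3) : ph (c + c') y = ph c y * ph c' y := by
  unfold ph
  rw [← AddChar.map_add_eq_mul]
  congr 1
  simp only [Pi.add_apply]
  ring

lemma chx_add (c : H →+ (V → Fin 3 → ZMod q)) (κ : AddChar H ℂ) (x : V → B3) (a a' : H) :
    chx c κ x (a + a') = chx c κ x a * chx c κ x a' := by
  unfold chx
  rw [AddChar.map_add_eq_mul, map_add]
  have : ∏ v, ph ((c a + c a') v) (x v) = (∏ v, ph (c a v) (x v)) * ∏ v, ph (c a' v) (x v) := by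
    rw [← Finset.prod_mul_distrib]
    refine Finset.prod_congr rfl fun v _ => ?_
    rw [Pi.add_apply, ph_add]
  rw [this]
  ring

/-- the sum of a character over a finite subgroup -/
lemma sum_char (S : Finset H) (h1 : ∀ a ∈ S, ∀ a' ∈ S, a + a' ∈ S)
    (h2 : ∀ a ∈ S, ∀ a' ∈ S, a - a' ∈ S) (χ : H → ℂ) (h3 : ∀ a a', χ (a + a') = χ a * χ a') :
    ∑ a ∈ S, χ a = ((if ∀ a ∈ S, χ a = 1 then (S.card : ℝ) else 0 : ℝ) : ℂ) := by
  by_cases h : ∀ a ∈ S, χ a = 1
  · rw [if_pos h, Finset.sum_congr rfl h]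
    simp
  · rw [if_neg h]
    push Not at h
    obtain ⟨a0, ha0, hne⟩ := h
    have h4 : ∑ a ∈ S, χ a = ∑ a ∈ S, χ (a + a0) := by
      refine Finset.sum_bij' (fun a _ => a - a0) (fun a _ => a + a0) ?_ ?_ ?_ ?_ ?_
      · exact fun a ha => h2 a ha a0 ha0
      · exact fun a ha => h1 a ha a0 ha0
      · exact fun a _ => sub_add_cancel a a0
      · exact fun a _ => add_sub_cancel_right a a0
      · intro a _
        rw [sub_add_cancel]
    have h5 : ∑ a ∈ S, χ (a + a0) = (∑ a ∈ S, χ a) * χ a0 := by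
      rw [Finset.sum_mul]
      exact Finset.sum_congr rfl fun a _ => h3 a a0
    rw [h5] at h4
    have h6 : (∑ a ∈ S, χ a) * (1 - χ a0) = 0 := by
      rw [mul_sub, mul_one, ← h4, sub_self]
    rcases mul_eq_zero.mp h6 with h7 | h7
    · rw [h7]
      simp
    · exact absurd (sub_eq_zero.mp h7).symm hne

/-- the correlation of a phase with a set of equations -/
noncomputable def cor (A : ι → V → ZMod 2) (b : ι → ZMod 2) (c : H →+ (V → Fin 3 → ZMod q))
    (κ : AddChar H ℂ) (a : H) (J : Finset ι) : ℂ := ∑ x, chx c κ x a * (ep A b J x : ℂ)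

lemma norm_cor_le {ρ : ℝ} (h : RhoBound q ρ) (c : H →+ (V → Fin 3 → ZMod q)) (κ : AddChar H ℂ)
    (a : H) (J : Finset ι) : ‖cor A b c κ a J‖ ≤
      if supp A J ⊆ cs c a then 8 ^ Fintype.card V * ρ ^ (cs c a).card else 0 := by
  have h1 : cor A b c κ a J = κ a * (sg (∑ j ∈ J, b j) : ℂ) *
      ∏ v, fac (c a v) (AJ A J v) := by
    unfold cor chx
    rw [← sum_prod_ph, Finset.mul_sum]
    refine Finset.sum_congr rfl fun x _ => ?_
    rw [ep_eq]
    push_cast
    ring
  rw [h1, norm_mul, norm_mul, AddChar.norm_apply, one_mul]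
  have h2 : ‖(sg (∑ j ∈ J, b j) : ℂ)‖ = 1 := by
    rcases sg_cases (∑ j ∈ J, b j) with h3 | h3 <;> rw [h3] <;> simp
  rw [h2, one_mul]
  refine (h.prod_le (c a) (AJ A J)).trans ?_
  have h3 : (∀ v, AJ A J v ≠ 0 → c a v ≠ 0) ↔ supp A J ⊆ cs c a := by
    constructor
    · intro h4 v hv
      rw [mem_cs]
      exact h4 v (by simpa [supp] using hv)
    · intro h4 v hv
      rw [← mem_cs]
      exact h4 (by simpa [supp] using hv)
  by_cases h4 : supp A J ⊆ cs c a
  · rw [if_pos (h3.mpr h4), if_pos h4]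
    exact le_refl _
  · rw [if_neg (fun hc => h4 (h3.mp hc)), if_neg h4]

lemma sum_cor_le {ρ : ℝ} (h : RhoBound q ρ) (c : H →+ (V → Fin 3 → ZMod q)) (κ : AddChar H ℂ)
    (S : Finset H) (G : Finset (Finset ι)) : ‖∑ a ∈ S, ∑ J ∈ G, cor A b c κ a J‖ ≤
      8 ^ Fintype.card V * ∑ a ∈ S,
        ((G.filter fun J => supp A J ⊆ cs c a).card : ℝ) * ρ ^ (cs c a).card := by
  rw [Finset.mul_sum]
  refine (norm_sum_le _ _).trans (Finset.sum_le_sum fun a _ => ?_)
  refine (norm_sum_le _ _).trans ?_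
  refine (Finset.sum_le_sum fun J _ => norm_cor_le (A := A) (b := b) h c κ a J).trans ?_
  rw [← Finset.sum_filter, Finset.sum_const, nsmul_eq_mul]
  exact le_of_eq (by ring)

/-- the combined rate -/
structure Rate (ρ ρ' : ℝ) (e : ℕ) : Prop where
  pos : 0 ≤ ρ
  le : ρ ≤ ρ'
  le1 : ρ' ≤ 1
  pow : 4 * ρ ^ e ≤ ρ' ^ e

lemma Rate.bound {ρ ρ' : ℝ} {e : ℕ} (h : Rate ρ ρ' e) (t : ℕ) :
    (4 : ℝ) ^ (t / e) * ρ ^ t ≤ ρ' ^ t := by
  have h1 : ∀ z : ℝ, z ^ t = (z ^ e) ^ (t / e) * z ^ (t % e) := by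
    intro z
    rw [← pow_mul, ← pow_add, Nat.div_add_mod]
  have hp := h.pos
  rw [h1 ρ, h1 ρ', ← mul_assoc, ← mul_pow]
  refine mul_le_mul (pow_le_pow_left₀ (by positivity) h.pow _)
    (pow_le_pow_left₀ h.pos h.le _) (by positivity) (pow_nonneg (pow_nonneg (hp.trans h.le) _) _)

variable {K e r : ℕ}

lemma count_mul_le {ρ ρ' : ℝ} (hR : Rate ρ ρ' e) (hE : Expd A K e) (he : 1 ≤ e) (hr : r ≤ K)
    (hm : (Fam ι r).card ≤ 4 ^ K) (T : Finset V) (G : Finset (Finset ι)) (hG : G ⊆ Fam ι r) :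
    ((G.filter fun J => supp A J ⊆ T).card : ℝ) * ρ ^ T.card ≤ ρ' ^ T.card := by
  refine le_trans (mul_le_mul_of_nonneg_right ?_ (pow_nonneg hR.pos _)) (hR.bound T.card)
  have h1 := NT_le hE he hr hm T
  have h2 : (G.filter fun J => supp A J ⊆ T).card ≤
      ((Fam ι r).filter fun J => supp A J ⊆ T).card :=
    Finset.card_le_card (Finset.filter_subset_filter _ hG)
  exact_mod_cast h2.trans h1

/-- the representation of a function as an average of phases -/
def Rep (q : ℕ) [NeZero q] (c : H →+ (V → Fin 3 → ZMod q)) (κ : AddChar H ℂ)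
    (f : (V → B3) → ℝ) : Prop :=
  ∀ x, (Fintype.card H : ℂ) * (f x : ℂ) = ∑ a, chx c κ x a

lemma card_pos_H : (0 : ℝ) < Fintype.card H := by
  have : 0 < Fintype.card H := Fintype.card_pos
  exact_mod_cast this

/-- the functions that are supported on violations of one equation -/
theorem rhs_bound {ρ ρ' : ℝ} (hρ : RhoBound q ρ) (hR : Rate ρ ρ' e) (hE : Expd A K e)
    (he : 1 ≤ e) (hr : r ≤ K) (hm : (Fam ι r).card ≤ 4 ^ K)
    {c : H →+ (V → Fin 3 → ZMod q)} {κ : AddChar H ℂ} {f : (V → B3) → ℝ} (hf : Rep q c κ f)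
    (i : ι) (hi : ∀ x, f x ≠ 0 → ep A b {i} x = -1) :
    |Psi A b r f| ≤ 8 ^ Fintype.card V * ρ' ^ (e * r) := by
  obtain ⟨G, hG⟩ : ∃ G, G = (Fam ι r).filter fun J => symmDiff J {i} ∉ Fam ι r := ⟨_, rfl⟩
  have hGF : G ⊆ Fam ι r := by rw [hG]; exact Finset.filter_subset _ _
  have h1 : Psi A b r f = ∑ J ∈ G, ∑ x, f x * ep A b J x := by
    unfold Psi
    rw [Finset.sum_comm, Finset.sum_comm (s := G)]
    refine Finset.sum_congr rfl fun x _ => ?_
    rw [← Finset.mul_sum, ← Finset.mul_sum]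
    by_cases hx : f x = 0
    · rw [hx, zero_mul, zero_mul]
    · congr 1
      rw [hG, ← Finset.sum_filter_add_sum_filter_not (Fam ι r)
        (fun J => symmDiff J {i} ∉ Fam ι r)]
      have h2 : ∑ J ∈ (Fam ι r).filter (fun J => ¬ symmDiff J {i} ∉ Fam ι r), ep A b J x = 0 := by
        have h3 : ∑ J ∈ (Fam ι r).filter (fun J => ¬ symmDiff J {i} ∉ Fam ι r), ep A b J x =
            ∑ J ∈ (Fam ι r).filter (fun J => ¬ symmDiff J {i} ∉ Fam ι r),
              ep A b (symmDiff J {i}) x := by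
          refine Finset.sum_bij' (fun J _ => symmDiff J {i}) (fun J _ => symmDiff J {i})
            ?_ ?_ ?_ ?_ ?_
          · intro J hJ
            rw [Finset.mem_filter, not_not] at hJ ⊢
            refine ⟨hJ.2, ?_⟩
            rw [symmDiff_symmDiff_cancel_right]
            exact hJ.1
          · intro J hJ
            rw [Finset.mem_filter, not_not] at hJ ⊢
            refine ⟨hJ.2, ?_⟩
            rw [symmDiff_symmDiff_cancel_right]
            exact hJ.1
          · exact fun J _ => symmDiff_symmDiff_cancel_right {i} J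
          · exact fun J _ => symmDiff_symmDiff_cancel_right {i} J
          · intro J _
            rw [symmDiff_symmDiff_cancel_right]
        have h4 : ∑ J ∈ (Fam ι r).filter (fun J => ¬ symmDiff J {i} ∉ Fam ι r),
            ep A b (symmDiff J {i}) x =
            - ∑ J ∈ (Fam ι r).filter (fun J => ¬ symmDiff J {i} ∉ Fam ι r), ep A b J x := by
          rw [← Finset.sum_neg_distrib]
          refine Finset.sum_congr rfl fun J _ => ?_
          rw [ep_symmDiff, hi x hx]
          ring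
        linarith
      rw [h2, add_zero]
  have h2 : (Fintype.card H : ℂ) * ((Psi A b r f : ℝ) : ℂ) =
      ∑ a ∈ (univ : Finset H), ∑ J ∈ G, cor A b c κ a J := by
    rw [h1]
    push_cast
    rw [Finset.mul_sum, Finset.sum_comm (s := (univ : Finset H))]
    refine Finset.sum_congr rfl fun J _ => ?_
    unfold cor
    rw [Finset.mul_sum, Finset.sum_comm]
    refine Finset.sum_congr rfl fun x _ => ?_
    rw [← mul_assoc, hf x, Finset.sum_mul]
  have h3 := sum_cor_le (A := A) (b := b) hρ c κ (univ : Finset H) G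
  rw [← h2, norm_mul, Complex.norm_natCast, Complex.norm_real, Real.norm_eq_abs] at h3
  have hρ0 := hR.pos
  have hρ'0 : 0 ≤ ρ' := hR.pos.trans hR.le
  have h4 : ∀ a ∈ (univ : Finset H), ((G.filter fun J => supp A J ⊆ cs c a).card : ℝ) *
      ρ ^ (cs c a).card ≤ ρ' ^ (e * r) := by
    intro a _
    by_cases hlarge : e * r ≤ (cs c a).card
    · exact (count_mul_le hR hE he hr hm (cs c a) G hGF).trans
        (pow_le_pow_of_le_one hρ'0 hR.le1 hlarge)
    · have h5 : G.filter (fun J => supp A J ⊆ cs c a) = ∅ := by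
        refine Finset.filter_eq_empty_iff.mpr fun J hJ hsub => hlarge ?_
        rw [hG, Finset.mem_filter, mem_Fam, mem_Fam] at hJ
        have h6 := card_symmDiff_le J {i}
        rw [Finset.card_singleton] at h6
        have h7 : r ≤ J.card := by
          have := hJ.2
          omega
        have h8 := hE J (by omega)
        exact (Nat.mul_le_mul_left e h7).trans (h8.trans (Finset.card_le_card hsub))
      rw [h5, Finset.card_empty]
      push_cast
      rw [zero_mul]
      positivity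
  have h5 := h3.trans (mul_le_mul_of_nonneg_left (Finset.sum_le_sum h4) (by positivity))
  rw [Finset.sum_const, Finset.card_univ, nsmul_eq_mul] at h5
  have h6 := card_pos_H (H := H)
  have h7 : (Fintype.card H : ℝ) * |Psi A b r f| ≤
      Fintype.card H * (8 ^ Fintype.card V * ρ' ^ (e * r)) := by
    calc _ ≤ _ := h5
      _ = _ := by ring
  exact le_of_mul_le_mul_left h7 h6

/-- all functions with a representation -/
theorem lhs_bound {ρ ρ' : ℝ} (hρ : RhoBound q ρ) (hR : Rate ρ ρ' e) (hE : Expd A K e)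
    (he : 1 ≤ e) (hr : r ≤ K) (hm : (Fam ι r).card ≤ 4 ^ K) {s : ℕ} (hs : s * s ≤ e * r)
    {c : H →+ (V → Fin 3 → ZMod q)} {κ : AddChar H ℂ} {f : (V → B3) → ℝ} (hf : Rep q c κ f) :
    -(8 ^ Fintype.card V * ((1 + ρ') / 2) ^ s) ≤ Psi A b r f := by
  have hρ0 := hR.pos
  have hρ'0 : 0 ≤ ρ' := hR.pos.trans hR.le
  have h6 := card_pos_H (H := H)
  have hrate : ρ' ≤ (1 + ρ') / 2 := by
    have := hR.le1
    linarith
  rcases greedy c s s (∅ : Finset V) with ⟨hs', is, h1, h2, -⟩ | ⟨U, -, hU, hsmall⟩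
  · have h3 : (Fintype.card H : ℂ) * ((Psi A b r f : ℝ) : ℂ) =
        ∑ a ∈ (univ : Finset H), ∑ J ∈ Fam ι r, cor A b c κ a J := by
      unfold Psi
      push_cast
      rw [Finset.mul_sum, Finset.sum_comm (s := (univ : Finset H))]
      refine Finset.sum_congr rfl fun J _ => ?_
      unfold cor
      rw [Finset.mul_sum, Finset.sum_comm]
      refine Finset.sum_congr rfl fun x _ => ?_
      rw [← mul_assoc, hf x, Finset.sum_mul]
    have h4 := sum_cor_le (A := A) (b := b) hρ c κ (univ : Finset H) (Fam ι r)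
    rw [← h3, norm_mul, Complex.norm_natCast, Complex.norm_real, Real.norm_eq_abs] at h4
    have h5 : ∑ a ∈ (univ : Finset H), (((Fam ι r).filter fun J => supp A J ⊆ cs c a).card : ℝ) *
        ρ ^ (cs c a).card ≤ ∑ a : H, ρ' ^ (cs c a).card :=
      Finset.sum_le_sum fun a _ => count_mul_le hR hE he hr hm (cs c a) _ (subset_refl _)
    have h7 := chain_supp c hρ'0 hR.le1 hs' is h1 h2
    have h8 : (Fintype.card H : ℝ) * |Psi A b r f| ≤
        Fintype.card H * (8 ^ Fintype.card V * ((1 + ρ') / 2) ^ s) := by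
      calc _ ≤ 8 ^ Fintype.card V * ∑ a : H, ρ' ^ (cs c a).card :=
            h4.trans (mul_le_mul_of_nonneg_left h5 (by positivity))
        _ ≤ 8 ^ Fintype.card V * (Fintype.card H * ((1 + ρ') / 2) ^ s) :=
            mul_le_mul_of_nonneg_left h7 (by positivity)
        _ = _ := by ring
    exact (abs_le.mp (le_of_mul_le_mul_left h8 h6)).1
  · rw [Finset.card_empty, zero_add] at hU
    obtain ⟨S, hS⟩ : ∃ S : Finset H, S = univ.filter fun a => cs c a ⊆ U := ⟨_, rfl⟩
    have hmemS : ∀ a, a ∈ S ↔ ∀ v ∉ U, c a v = 0 := by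
      intro a
      rw [hS, Finset.mem_filter]
      constructor
      · rintro ⟨-, h⟩ v hv
        by_contra hne
        exact hv (h (mem_cs.mpr hne))
      · intro h
        refine ⟨mem_univ _, fun v hv => ?_⟩
        by_contra hvU
        exact (mem_cs.mp hv) (h v hvU)
    have hSadd : ∀ a ∈ S, ∀ a' ∈ S, a + a' ∈ S := by
      intro a ha a' ha'
      rw [hmemS] at ha ha' ⊢
      intro v hv
      rw [map_add, Pi.add_apply, ha v hv, ha' v hv, add_zero]
    have hSsub : ∀ a ∈ S, ∀ a' ∈ S, a - a' ∈ S := by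
      intro a ha a' ha'
      rw [hmemS] at ha ha' ⊢
      intro v hv
      rw [map_sub, Pi.sub_apply, ha v hv, ha' v hv, sub_zero]
    classical
    obtain ⟨g, hg⟩ : ∃ g : (V → B3) → ℝ, g = fun x =>
      if ∀ a ∈ S, chx c κ x a = 1 then (S.card : ℝ) else 0 := ⟨_, rfl⟩
    have hg1 : ∀ x, ∑ a ∈ S, chx c κ x a = ((g x : ℝ) : ℂ) := by
      intro x
      rw [hg, sum_char S hSadd hSsub (chx c κ x) (chx_add c κ x)]
    have hg0 : ∀ x, 0 ≤ g x := by
      intro x
      rw [hg]
      simp only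
      split_ifs
      · positivity
      · exact le_refl _
    have hgU : ∀ v ∉ U, ∀ x, g (flip v x) = g x := by
      intro v hv x
      have h7 : ∀ a ∈ S, chx c κ (flip v x) a = chx c κ x a := by
        intro a ha
        unfold chx
        congr 1
        refine Finset.prod_congr rfl fun u _ => ?_
        by_cases hu : u = v
        · rw [hu, (hmemS a).mp ha v hv, ph_zero, ph_zero]
        · unfold flip
          rw [Function.update_of_ne hu]
      rw [hg]
      simp only
      have h8 : (∀ a ∈ S, chx c κ (flip v x) a = 1) ↔ ∀ a ∈ S, chx c κ x a = 1 := by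
        constructor
        · intro h a ha
          rw [← h7 a ha]
          exact h a ha
        · intro h a ha
          rw [h7 a ha]
          exact h a ha
      by_cases h9 : ∀ a ∈ S, chx c κ x a = 1
      · rw [if_pos h9, if_pos (h8.mpr h9)]
      · rw [if_neg h9, if_neg (fun hc => h9 (h8.mp hc))]
    have hloc := psi_local (b := b) hE he hr (hU.trans hs) hg0 hgU
    have h3 : (Fintype.card H : ℂ) * ((Psi A b r f : ℝ) : ℂ) = ((Psi A b r g : ℝ) : ℂ) +
        ∑ a ∈ univ.filter (fun a => a ∉ S), ∑ J ∈ Fam ι r, cor A b c κ a J := by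
      unfold Psi
      push_cast
      rw [Finset.mul_sum, Finset.sum_comm (s := univ.filter fun a => a ∉ S),
        ← Finset.sum_add_distrib]
      refine Finset.sum_congr rfl fun J _ => ?_
      unfold cor
      rw [Finset.mul_sum, Finset.sum_comm (s := univ.filter fun a => a ∉ S),
        ← Finset.sum_add_distrib]
      refine Finset.sum_congr rfl fun x _ => ?_
      rw [← mul_assoc, hf x, ← hg1 x, ← Finset.sum_mul, ← add_mul]
      congr 1
      rw [← Finset.sum_filter_add_sum_filter_not univ (fun a => a ∈ S)]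
      congr 1
      rw [Finset.filter_mem_eq_inter, Finset.univ_inter]
    have h4 := sum_cor_le (A := A) (b := b) hρ c κ (univ.filter fun a => a ∉ S) (Fam ι r)
    have h5 : ∑ a ∈ univ.filter (fun a => a ∉ S),
        (((Fam ι r).filter fun J => supp A J ⊆ cs c a).card : ℝ) * ρ ^ (cs c a).card ≤
        Fintype.card H * ((1 + ρ') / 2) ^ s := by
      have h7 : ∀ a ∈ univ.filter (fun a => a ∉ S),
          (((Fam ι r).filter fun J => supp A J ⊆ cs c a).card : ℝ) * ρ ^ (cs c a).card ≤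
          ((1 + ρ') / 2) ^ s := by
        intro a ha
        have h8 : s ≤ (cs c a).card := by
          by_contra hc
          push Not at hc
          apply (Finset.mem_filter.mp ha).2
          rw [hS, Finset.mem_filter]
          exact ⟨mem_univ _, hsmall a hc.le⟩
        refine (count_mul_le hR hE he hr hm (cs c a) _ (subset_refl _)).trans ?_
        exact (pow_le_pow_of_le_one hρ'0 hR.le1 h8).trans (pow_le_pow_left₀ hρ'0 hrate s)
      refine (Finset.sum_le_card_nsmul _ _ _ h7).trans ?_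
      rw [nsmul_eq_mul]
      refine mul_le_mul_of_nonneg_right ?_ (by positivity)
      exact_mod_cast Finset.card_le_univ _
    have h7 := h4.trans (mul_le_mul_of_nonneg_left h5 (by positivity))
    have h8 := congrArg Complex.re h3
    rw [Complex.add_re, Complex.ofReal_re] at h8
    have h9 : ((Fintype.card H : ℂ) * ((Psi A b r f : ℝ) : ℂ)).re =
        Fintype.card H * Psi A b r f := by
      have : (Fintype.card H : ℂ) * ((Psi A b r f : ℝ) : ℂ) =
          (((Fintype.card H : ℝ) * Psi A b r f : ℝ) : ℂ) := by push_cast; ring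
      rw [this, Complex.ofReal_re]
    rw [h9] at h8
    have h10 := (abs_le.mp (Complex.abs_re_le_norm (∑ a ∈ univ.filter (fun a => a ∉ S),
      ∑ J ∈ Fam ι r, cor A b c κ a J))).1
    have h11 : Fintype.card H * (-(8 ^ Fintype.card V * ((1 + ρ') / 2) ^ s)) ≤
        Fintype.card H * Psi A b r f := by
      rw [h8]
      have : (Fintype.card H : ℝ) * (-(8 ^ Fintype.card V * ((1 + ρ') / 2) ^ s)) =
        -(8 ^ Fintype.card V * (Fintype.card H * ((1 + ρ') / 2) ^ s)) := by ring
      rw [this]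
      linarith
    exact le_of_mul_le_mul_left h11 h6

/-- the functions that are averages of phases -/
def Phase (q : ℕ) [NeZero q] (f : (V → B3) → ℝ) : Prop :=
  ∃ (r : ℕ) (c : (Fin r → ZMod q) →+ (V → Fin 3 → ZMod q)) (κ : AddChar (Fin r → ZMod q) ℂ),
    Rep q c κ f

lemma psi_add (f g : (V → B3) → ℝ) : Psi A b r (fun x => f x + g x) =
    Psi A b r f + Psi A b r g := by
  unfold Psi
  rw [← Finset.sum_add_distrib]
  refine Finset.sum_congr rfl fun J _ => ?_
  rw [← Finset.sum_add_distrib]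
  refine Finset.sum_congr rfl fun x _ => by ring

lemma psi_sum {α : Type*} (t : Finset α) (w : α → ℝ) (f : α → (V → B3) → ℝ) :
    Psi A b r (fun x => ∑ i ∈ t, w i * f i x) = ∑ i ∈ t, w i * Psi A b r (f i) := by
  unfold Psi
  simp_rw [Finset.mul_sum, Finset.sum_mul]
  rw [Finset.sum_comm (s := t)]
  refine Finset.sum_congr rfl fun J _ => ?_
  rw [Finset.sum_comm (s := t)]
  refine Finset.sum_congr rfl fun x _ => ?_
  refine Finset.sum_congr rfl fun i _ => by ring

/-- the main inequality -/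
theorem core_sa {ρ ρ' : ℝ} (hρ : RhoBound q ρ) (hR : Rate ρ ρ' e) (hE : Expd A K e)
    (he : 1 ≤ e) (hr : r ≤ K) (hm : (Fam ι r).card ≤ 4 ^ K) {s : ℕ} (hs : s * s ≤ e * r)
    {I I' : Type*} [Fintype I] [Fintype I'] (l : I → ℝ) (m : I' → ℝ) (hm0 : ∀ j, 0 ≤ m j)
    (F : I → (V → B3) → ℝ) (G : I' → (V → B3) → ℝ) (hF : ∀ i, Phase q (F i))
    (hG : ∀ j, Phase q (G j)) (hviol : ∀ i, ∃ i0 : ι, ∀ x, F i x ≠ 0 → ep A b {i0} x = -1)
    (hid : ∀ x, ∑ i, l i * F i x = 1 + ∑ j, m j * G j x) :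
    1 ≤ (∑ i, |l i| + ∑ j, m j) * ((1 + ρ') / 2) ^ s := by
  have hρ'0 : 0 ≤ ρ' := hR.pos.trans hR.le
  have h1 : ∑ i, l i * Psi A b r (F i) = Fintype.card (V → B3) + ∑ j, m j * Psi A b r (G j) := by
    rw [← psi_sum univ l F, ← psi_sum univ m G, ← psi_one (b := b) hE he hr, ← psi_add]
    congr 1
    funext x
    exact hid x
  have hcard : (Fintype.card (V → B3) : ℝ) = 8 ^ Fintype.card V := by
    rw [Fintype.card_fun]
    norm_num [Fintype.card_prod]
  rw [hcard] at h1
  have hX : (0 : ℝ) < 8 ^ Fintype.card V := by positivity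
  obtain ⟨δ, hδ⟩ : ∃ δ, δ = ((1 + ρ') / 2) ^ s := ⟨_, rfl⟩
  have hδ0 : 0 ≤ δ := by rw [hδ]; positivity
  have h2 : ∀ i, |Psi A b r (F i)| ≤ 8 ^ Fintype.card V * δ := by
    intro i
    obtain ⟨i0, hi0⟩ := hviol i
    obtain ⟨_, c, κ, hrep⟩ := hF i
    refine (rhs_bound hρ hR hE he hr hm hrep i0 hi0).trans ?_
    refine mul_le_mul_of_nonneg_left ?_ hX.le
    rw [hδ]
    have h3 : s ≤ e * r := le_trans (Nat.le_mul_self s) hs
    refine (pow_le_pow_of_le_one hρ'0 hR.le1 h3).trans (pow_le_pow_left₀ hρ'0 ?_ s)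
    have := hR.le1
    linarith
  have h3 : ∀ j, -(8 ^ Fintype.card V * δ) ≤ Psi A b r (G j) := by
    intro j
    obtain ⟨_, c, κ, hrep⟩ := hG j
    rw [hδ]
    exact lhs_bound hρ hR hE he hr hm hs hrep
  have h4 : ∑ i, l i * Psi A b r (F i) ≤ (∑ i, |l i|) * (8 ^ Fintype.card V * δ) := by
    rw [Finset.sum_mul]
    refine Finset.sum_le_sum fun i _ => ?_
    calc l i * Psi A b r (F i) ≤ |l i * Psi A b r (F i)| := le_abs_self _
      _ = |l i| * |Psi A b r (F i)| := abs_mul _ _
      _ ≤ |l i| * (8 ^ Fintype.card V * δ) := mul_le_mul_of_nonneg_left (h2 i) (abs_nonneg _)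
  have h5 : -((∑ j, m j) * (8 ^ Fintype.card V * δ)) ≤ ∑ j, m j * Psi A b r (G j) := by
    rw [Finset.sum_mul, ← Finset.sum_neg_distrib]
    refine Finset.sum_le_sum fun j _ => ?_
    have := mul_le_mul_of_nonneg_left (h3 j) (hm0 j)
    linarith
  have h6 : (8 : ℝ) ^ Fintype.card V * 1 ≤
      8 ^ Fintype.card V * ((∑ i, |l i| + ∑ j, m j) * δ) := by
    have : (8 : ℝ) ^ Fintype.card V * ((∑ i, |l i| + ∑ j, m j) * δ) =
      (∑ i, |l i|) * (8 ^ Fintype.card V * δ) + (∑ j, m j) * (8 ^ Fintype.card V * δ) := by ring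
    rw [this]
    linarith
  rw [← hδ]
  exact le_of_mul_le_mul_left h6 hX

end Pool.Agent.J4H24.SA
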