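import Pool.Agent.J4H24.SA.Gad
import Pool.Agent.J4H24.PR.RandSys

/-!
# The pseudo-expectation
-/

namespace Pool.Agent.J4H24.SA

open Finset Pool.Agent.J4H24.PR

set_option linter.unusedSectionVars false

variable {V ι : Type*} [Fintype V] [DecidableEq V] [Fintype ι] [DecidableEq ι]
  {A : ι → V → ZMod 2} {b : ι → ZMod 2}

/-- the sign of an element of `ZMod 2` -/
def sg (a : ZMod 2) : ℝ := if a = 0 then 1 else -1

lemma sg_add (a b : ZMod 2) : sg (a + b) = sg a * sg b := by
  unfold sg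
  have h : ∀ a b : ZMod 2, (a = 0 ∧ b = 0 ∧ a + b = 0) ∨ (a = 0 ∧ b ≠ 0 ∧ a + b ≠ 0) ∨
      (a ≠ 0 ∧ b = 0 ∧ a + b ≠ 0) ∨ (a ≠ 0 ∧ b ≠ 0 ∧ a + b = 0) := by decide
  rcases h a b with ⟨h1, h2, h3⟩ | ⟨h1, h2, h3⟩ | ⟨h1, h2, h3⟩ | ⟨h1, h2, h3⟩ <;>
    simp [h1, h2, h3]

lemma sg_zero : sg 0 = 1 := by simp [sg]

lemma sg_sq (a : ZMod 2) : sg a * sg a = 1 := by
  unfold sg
  split_ifs <;> norm_num

lemma sg_cases (a : ZMod 2) : sg a = 1 ∨ sg a = -1 := by
  unfold sg
  split_ifs <;> simp

lemma sg_sum {α : Type*} (s : Finset α) (f : α → ZMod 2) : sg (∑ i ∈ s, f i) = ∏ i ∈ s, sg (f i) := by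
  classical
  induction s using Finset.induction_on with
  | empty => simp [sg_zero]
  | insert a s ha ih => rw [Finset.sum_insert ha, Finset.prod_insert ha, sg_add, ih]

/-- the values of the gadgets -/
def gx (x : V → B3) (v : V) : Bool := gd (x v)

/-- the sign of a set of equations at an assignment -/
def ep (A : ι → V → ZMod 2) (b : ι → ZMod 2) (J : Finset ι) (x : V → B3) : ℝ :=
  sg (PR.T A J (gx x) + ∑ j ∈ J, b j)

lemma sg_T (J : Finset ι) (x : V → B3) :
    sg (PR.T A J (gx x)) = ∏ v, (if AJ A J v = 0 then 1 else sb (gd (x v))) := by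
  unfold PR.T
  rw [sg_sum]
  refine Finset.prod_congr rfl fun v _ => ?_
  unfold gx
  have h : ∀ (a : ZMod 2) (c : Bool), sg (a * bz c) = if a = 0 then 1 else sb c := by
    intro a c
    rcases zmod2_cases a with rfl | rfl
    · simp [sg_zero]
    · cases c <;> simp [bz, sg, sb]
  exact h _ _

lemma ep_eq (J : Finset ι) (x : V → B3) : ep A b J x =
    sg (∑ j ∈ J, b j) * ∏ v, (if AJ A J v = 0 then 1 else sb (gd (x v))) := by
  unfold ep
  rw [sg_add, sg_T, mul_comm]

lemma ep_symmDiff (J J' : Finset ι) (x : V → B3) :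
    ep A b (symmDiff J J') x = ep A b J x * ep A b J' x := by
  unfold ep
  rw [← sg_add, T_symmDiff, sum_symmDiff]
  congr 1
  ring

lemma ep_cases (J : Finset ι) (x : V → B3) : ep A b J x = 1 ∨ ep A b J x = -1 := sg_cases _

lemma ep_empty (x : V → B3) : ep A b ∅ x = 1 := by
  simp [ep, PR.T, AJ, sg_zero]

/-- flip the first bit of a block -/
def flip (v : V) (x : V → B3) : V → B3 := Function.update x v (!(x v).1, (x v).2)

lemma flip_flip (v : V) (x : V → B3) : flip v (flip v x) = x := by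
  unfold flip
  funext u
  by_cases hu : u = v
  · subst hu
    simp
  · simp [Function.update_of_ne hu]

lemma ep_flip {J : Finset ι} {v : V} (hv : AJ A J v ≠ 0) (x : V → B3) :
    ep A b J (flip v x) = - ep A b J x := by
  rw [ep_eq, ep_eq, ← Finset.mul_prod_erase univ _ (mem_univ v),
    ← Finset.mul_prod_erase univ (fun v => if AJ A J v = 0 then 1 else sb (gd (x v))) (mem_univ v)]
  have h1 : ∏ u ∈ univ.erase v, (if AJ A J u = 0 then (1 : ℝ) else sb (gd (flip v x u))) =
      ∏ u ∈ univ.erase v, (if AJ A J u = 0 then 1 else sb (gd (x u))) := by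
    refine Finset.prod_congr rfl fun u hu => ?_
    unfold flip
    rw [Function.update_of_ne (Finset.mem_erase.mp hu).1]
  rw [h1, if_neg hv, if_neg hv]
  have h2 : sb (gd (flip v x v)) = - sb (gd (x v)) := by
    unfold flip
    rw [Function.update_self]
    have : ∀ y : B3, sb (gd (!y.1, y.2)) = - sb (gd y) := by
      rintro ⟨y1, y2, y3⟩
      cases y1 <;> cases y2 <;> cases y3 <;> simp [sb, gd]
    exact this _
  rw [h2]
  ring

/-- a function that does not depend on a block of the equations is orthogonal to them -/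
lemma sum_ep_zero {J : Finset ι} {v : V} (hv : AJ A J v ≠ 0) {f : (V → B3) → ℝ}
    (hf : ∀ x, f (flip v x) = f x) : ∑ x, f x * ep A b J x = 0 := by
  have h1 : ∑ x, f x * ep A b J x = ∑ x, f (flip v x) * ep A b J (flip v x) :=
    (Equiv.sum_comp (Function.Involutive.toPerm (flip v) (flip_flip v))
      (fun x => f x * ep A b J x)).symm
  have h2 : ∑ x, f (flip v x) * ep A b J (flip v x) = - ∑ x, f x * ep A b J x := by
    rw [← Finset.sum_neg_distrib]
    refine Finset.sum_congr rfl fun x _ => ?_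
    rw [hf, ep_flip hv]
    ring
  linarith

/-- the sets of at most `r` equations -/
def Fam (ι : Type*) [Fintype ι] [DecidableEq ι] (r : ℕ) : Finset (Finset ι) :=
  univ.filter fun J => J.card ≤ r

lemma mem_Fam {r : ℕ} {J : Finset ι} : J ∈ Fam ι r ↔ J.card ≤ r := by simp [Fam]

/-- the pseudo-expectation, not normalized -/
noncomputable def Psi (A : ι → V → ZMod 2) (b : ι → ZMod 2) (r : ℕ) (f : (V → B3) → ℝ) : ℝ :=
  ∑ J ∈ Fam ι r, ∑ x, f x * ep A b J x

/-- the sum of a character over a family closed under symmetric differences is not negative -/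
lemma sum_sign_nonneg (G : Finset (Finset ι)) (hG : ∀ J ∈ G, ∀ J' ∈ G, symmDiff J J' ∈ G)
    (χ : Finset ι → ℝ) (h1 : ∀ J J', χ (symmDiff J J') = χ J * χ J')
    (h2 : ∀ J, χ J = 1 ∨ χ J = -1) : 0 ≤ ∑ J ∈ G, χ J := by
  by_cases h : ∀ J ∈ G, χ J = 1
  · rw [Finset.sum_congr rfl h]
    simp
  · push Not at h
    obtain ⟨J0, hJ0, hne⟩ := h
    have h3 := (h2 J0).resolve_left hne
    have h4 : ∑ J ∈ G, χ J = ∑ J ∈ G, χ (symmDiff J J0) := by
      refine Finset.sum_bij' (fun J _ => symmDiff J J0) (fun J _ => symmDiff J J0) ?_ ?_ ?_ ?_ ?_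
      · exact fun J hJ => hG _ hJ _ hJ0
      · exact fun J hJ => hG _ hJ _ hJ0
      · exact fun J _ => symmDiff_symmDiff_cancel_right J0 J
      · exact fun J _ => symmDiff_symmDiff_cancel_right J0 J
      · intro J _
        rw [symmDiff_symmDiff_cancel_right]
    have h5 : ∑ J ∈ G, χ (symmDiff J J0) = - ∑ J ∈ G, χ J := by
      rw [← Finset.sum_neg_distrib]
      refine Finset.sum_congr rfl fun J _ => ?_
      rw [h1, h3]
      ring
    linarith

variable {K e r : ℕ}

/-- the expansion of the system -/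
def Expd (A : ι → V → ZMod 2) (K e : ℕ) : Prop :=
  ∀ J : Finset ι, J.card ≤ 2 * K → e * J.card ≤ (supp A J).card

lemma supp_symmDiff {J J' : Finset ι} {U : Finset V} (h : supp A J ⊆ U) (h' : supp A J' ⊆ U) :
    supp A (symmDiff J J') ⊆ U := by
  intro v hv
  unfold supp at hv h h'
  rw [Finset.mem_filter, AJ_symmDiff] at hv
  by_contra hc
  have h1 : AJ A J v = 0 := by
    by_contra hne
    exact hc (h (by simp [hne]))
  have h2 : AJ A J' v = 0 := by
    by_contra hne
    exact hc (h' (by simp [hne]))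
  apply hv.2
  rw [h1, h2, add_zero]

lemma card_symmDiff_le (J J' : Finset ι) : (symmDiff J J').card ≤ J.card + J'.card := by
  have h1 : symmDiff J J' ⊆ J ∪ J' := by
    intro a ha
    rw [Finset.mem_symmDiff] at ha
    rw [Finset.mem_union]
    tauto
  exact (Finset.card_le_card h1).trans (Finset.card_union_le _ _)

/-- local positivity -/
lemma psi_local (hE : Expd A K e) (he : 1 ≤ e) (hr : r ≤ K) {U : Finset V} (hU : U.card ≤ e * r)
    {f : (V → B3) → ℝ} (hf : ∀ x, 0 ≤ f x) (hfU : ∀ v ∉ U, ∀ x, f (flip v x) = f x) :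
    0 ≤ Psi A b r f := by
  unfold Psi
  rw [← Finset.sum_filter_add_sum_filter_not (Fam ι r) (fun J => supp A J ⊆ U)]
  have h1 : ∑ J ∈ (Fam ι r).filter (fun J => ¬ supp A J ⊆ U), ∑ x, f x * ep A b J x = 0 := by
    refine Finset.sum_eq_zero fun J hJ => ?_
    obtain ⟨v, hv, hvU⟩ := Finset.not_subset.mp (Finset.mem_filter.mp hJ).2
    exact sum_ep_zero (by simpa [supp] using hv) (hfU v hvU)
  rw [h1, add_zero, Finset.sum_comm]
  refine Finset.sum_nonneg fun x _ => ?_
  rw [← Finset.mul_sum]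
  refine mul_nonneg (hf x) ?_
  refine sum_sign_nonneg _ ?_ (fun J => ep A b J x) (fun J J' => ep_symmDiff J J' x)
    (fun J => ep_cases J x)
  intro J hJ J' hJ'
  rw [Finset.mem_filter, mem_Fam] at hJ hJ' ⊢
  have h2 := supp_symmDiff hJ.2 hJ'.2
  have h3 := card_symmDiff_le J J'
  have h4 := (hE _ (by omega)).trans ((Finset.card_le_card h2).trans hU)
  exact ⟨Nat.le_of_mul_le_mul_left h4 he, h2⟩

/-- the pseudo-expectation of the constant one -/
lemma psi_one (hE : Expd A K e) (he : 1 ≤ e) (hr : r ≤ K) :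
    Psi A b r (fun _ => 1) = Fintype.card (V → B3) := by
  unfold Psi
  rw [Finset.sum_eq_single ∅]
  · simp [ep_empty]
  · intro J hJ hne
    rw [mem_Fam] at hJ
    have h1 := hE J (by omega)
    have h2 : 0 < J.card := Finset.card_pos.mpr (Finset.nonempty_iff_ne_empty.mpr hne)
    have h3 : 0 < (supp A J).card := lt_of_lt_of_le (Nat.mul_pos he h2) h1
    obtain ⟨v, hv⟩ := Finset.card_pos.mp h3
    exact sum_ep_zero (by simpa [supp] using hv) (fun _ => rfl)
  · intro h
    exact absurd (mem_Fam.mpr (by simp)) h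

/-- the number of small sets of equations inside a set of variables -/
lemma NT_le (hE : Expd A K e) (he : 1 ≤ e) (hr : r ≤ K) (hm : (Fam ι r).card ≤ 4 ^ K)
    (T : Finset V) : ((Fam ι r).filter fun J => supp A J ⊆ T).card ≤ 4 ^ (T.card / e) := by
  by_cases h : T.card / e ≤ K
  · have h1 := group_card ((Fam ι K).filter fun J => supp A J ⊆ T) (T.card / e) ?_ ?_
    · refine (Finset.card_le_card ?_).trans h1
      intro J hJ
      rw [Finset.mem_filter, mem_Fam] at hJ ⊢
      exact ⟨hJ.1.trans hr, hJ.2⟩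
    · intro J hJ J' hJ'
      rw [Finset.mem_filter, mem_Fam] at hJ hJ' ⊢
      have h2 := supp_symmDiff hJ.2 hJ'.2
      have h3 := card_symmDiff_le J J'
      have h4 := (hE _ (by omega)).trans (Finset.card_le_card h2)
      refine ⟨?_, h2⟩
      refine le_trans ?_ h
      rw [Nat.le_div_iff_mul_le he, mul_comm]
      exact h4
    · intro J hJ
      rw [Finset.mem_filter, mem_Fam] at hJ
      rw [Nat.le_div_iff_mul_le he, mul_comm]
      exact (hE J (by omega)).trans (Finset.card_le_card hJ.2)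
  · push Not at h
    exact (Finset.card_le_card (Finset.filter_subset _ _)).trans
      (hm.trans (Nat.pow_le_pow_right (by norm_num) h.le))

end Pool.Agent.J4H24.SA
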