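import Pool.Agent.J4H24.SA.Group

/-!
# The gadget and its correlations with characters
-/

namespace Pool.Agent.J4H24.SA

open Finset

/-- the three bits of a block -/
abbrev B3 := Bool × Bool × Bool

/-- the gadget -/
def gd (y : B3) : Bool := xor y.1 (y.2.1 && y.2.2)

/-- the bits as elements of `ZMod q` -/
def ib (q : ℕ) (b : Bool) : ZMod q := if b then 1 else 0

/-- the sign of a bit -/
def sb (b : Bool) : ℝ := if b then -1 else 1

variable {q : ℕ} [NeZero q]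

/-- the phase of a block -/
noncomputable def ph (c : Fin 3 → ZMod q) (y : B3) : ℂ :=
  ZMod.stdAddChar (c 0 * ib q y.1 + c 1 * ib q y.2.1 + c 2 * ib q y.2.2)

lemma norm_char (u : ZMod q) : ‖(ZMod.stdAddChar u : ℂ)‖ = 1 := AddChar.norm_apply _ _

lemma ph_zero (y : B3) : ph (0 : Fin 3 → ZMod q) y = 1 := by
  unfold ph
  simp

lemma sum_ph (c : Fin 3 → ZMod q) : ∑ y : B3, ph c y =
    (1 + ZMod.stdAddChar (c 0)) * ((1 + ZMod.stdAddChar (c 1)) * (1 + ZMod.stdAddChar (c 2))) := by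
  unfold ph ib
  simp only [AddChar.map_add_eq_mul, Fintype.sum_prod_type, Fintype.sum_bool, if_true, mul_one,
    Bool.false_eq_true, if_false, mul_zero, AddChar.map_zero_eq_one]
  ring

lemma sum_ph_sb (c : Fin 3 → ZMod q) : ∑ y : B3, ph c y * (sb (gd y) : ℂ) =
    (1 - ZMod.stdAddChar (c 0)) * (1 + ZMod.stdAddChar (c 1) + ZMod.stdAddChar (c 2) -
      ZMod.stdAddChar (c 1) * ZMod.stdAddChar (c 2)) := by
  unfold ph ib sb gd
  simp only [AddChar.map_add_eq_mul, Fintype.sum_prod_type, Fintype.sum_bool, if_true, mul_one,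
    Bool.false_eq_true, if_false, mul_zero, AddChar.map_zero_eq_one, Bool.and_true, Bool.and_false,
    Bool.xor_true, Bool.xor_false, Bool.not_true, Bool.not_false]
  push_cast
  ring

/-- the parallelogram law on the unit circle -/
lemma circle_sq {z : ℂ} (hz : ‖z‖ = 1) : ‖1 + z‖ ^ 2 + ‖1 - z‖ ^ 2 = 4 := by
  have := parallelogram_law_with_norm ℝ (1 : ℂ) z
  rw [hz, norm_one] at this
  nlinarith

lemma norm_beta {u v : ℂ} (hu : ‖u‖ = 1) (hv : ‖v‖ = 1) : ‖1 + u + v - u * v‖ ≤ 3 := by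
  have h1 : 1 + u + v - u * v = (1 + u) + v * (1 - u) := by ring
  rw [h1]
  refine (norm_add_le _ _).trans ?_
  rw [norm_mul, hv, one_mul]
  have h2 := circle_sq hu
  nlinarith [norm_nonneg (1 + u), norm_nonneg (1 - u), sq_nonneg (‖1 + u‖ - ‖1 - u‖)]

/-- the correlation bound -/
structure RhoBound (q : ℕ) [NeZero q] (ρ : ℝ) : Prop where
  lt : ρ < 1
  ge : 3 / 4 ≤ ρ
  le : ∀ u : ZMod q, u ≠ 0 → ‖1 + (ZMod.stdAddChar u : ℂ)‖ ≤ 2 * ρ

lemma exists_rho (q : ℕ) [NeZero q] : ∃ ρ : ℝ, RhoBound q ρ := by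
  have h1 : ∀ u : ZMod q, u ≠ 0 → ‖1 + (ZMod.stdAddChar u : ℂ)‖ < 2 := by
    intro u hu
    have h2 := circle_sq (norm_char u)
    have h3 : (0 : ℝ) < ‖1 - (ZMod.stdAddChar u : ℂ)‖ := by
      rw [norm_pos_iff, sub_ne_zero]
      intro h4
      apply hu
      apply ZMod.injective_stdAddChar
      rw [← h4, AddChar.map_zero_eq_one]
    nlinarith [norm_nonneg (1 + (ZMod.stdAddChar u : ℂ))]
  have h2 : ∀ s : Finset (ZMod q), (∀ u ∈ s, u ≠ 0) → ∃ ρ : ℝ, ρ < 1 ∧ 3 / 4 ≤ ρ ∧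
      ∀ u ∈ s, ‖1 + (ZMod.stdAddChar u : ℂ)‖ ≤ 2 * ρ := by
    classical
    intro s
    induction s using Finset.induction_on with
    | empty => exact fun _ => ⟨3 / 4, by norm_num, le_refl _, by simp⟩
    | insert u s _ ih =>
      intro hs
      obtain ⟨ρ, h3, h4, h5⟩ := ih fun u hu => hs u (Finset.mem_insert_of_mem hu)
      have h6 := h1 u (hs u (Finset.mem_insert_self _ _))
      refine ⟨max ρ (‖1 + (ZMod.stdAddChar u : ℂ)‖ / 2), max_lt h3 (by linarith),
        h4.trans (le_max_left _ _), ?_⟩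
      intro v hv
      rcases Finset.mem_insert.mp hv with rfl | hv
      · have := le_max_right ρ (‖1 + (ZMod.stdAddChar v : ℂ)‖ / 2)
        linarith
      · have := le_max_left ρ (‖1 + (ZMod.stdAddChar u : ℂ)‖ / 2)
        have := h5 v hv
        linarith
  obtain ⟨ρ, h3, h4, h5⟩ := h2 (univ.filter fun u => u ≠ 0) (by simp)
  exact ⟨ρ, h3, h4, fun u hu => h5 u (by simp [hu])⟩

lemma norm_one_add_char (u : ZMod q) : ‖1 + (ZMod.stdAddChar u : ℂ)‖ ≤ 2 := by
  refine (norm_add_le _ _).trans ?_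
  rw [norm_char, norm_one]
  norm_num

lemma RhoBound.sum_ph_le {ρ : ℝ} (h : RhoBound q ρ) {c : Fin 3 → ZMod q} (hc : c ≠ 0) :
    ‖∑ y : B3, ph c y‖ ≤ 8 * ρ := by
  rw [sum_ph, norm_mul, norm_mul]
  have hρ := h.ge
  have h0 := norm_one_add_char (c 0)
  have h1 := norm_one_add_char (c 1)
  have h2 := norm_one_add_char (c 2)
  have n0 := norm_nonneg (1 + (ZMod.stdAddChar (c 0) : ℂ))
  have n1 := norm_nonneg (1 + (ZMod.stdAddChar (c 1) : ℂ))
  have n2 := norm_nonneg (1 + (ZMod.stdAddChar (c 2) : ℂ))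
  obtain ⟨k, hk⟩ := Function.ne_iff.mp hc
  have hk' := h.le (c k) hk
  fin_cases k
  · have h12 := mul_le_mul h1 h2 n2 (by norm_num : (0 : ℝ) ≤ 2)
    calc _ ≤ (2 * ρ) * (2 * 2) := mul_le_mul hk' h12 (mul_nonneg n1 n2) (by linarith)
      _ = 8 * ρ := by ring
  · have h12 := mul_le_mul hk' h2 n2 (by linarith : (0 : ℝ) ≤ 2 * ρ)
    calc _ ≤ 2 * ((2 * ρ) * 2) := mul_le_mul h0 h12 (mul_nonneg n1 n2) (by norm_num)
      _ = 8 * ρ := by ring
  · have h12 := mul_le_mul h1 hk' n2 (by norm_num : (0 : ℝ) ≤ 2)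
    calc _ ≤ 2 * (2 * (2 * ρ)) := mul_le_mul h0 h12 (mul_nonneg n1 n2) (by norm_num)
      _ = 8 * ρ := by ring

lemma RhoBound.sum_ph_sb_le {ρ : ℝ} (h : RhoBound q ρ) (c : Fin 3 → ZMod q) :
    ‖∑ y : B3, ph c y * (sb (gd y) : ℂ)‖ ≤ 8 * ρ := by
  rw [sum_ph_sb, norm_mul]
  have hρ := h.ge
  have h1 := norm_beta (norm_char (c 1)) (norm_char (c 2))
  have h0 : ‖1 - (ZMod.stdAddChar (c 0) : ℂ)‖ ≤ 2 := by
    refine (norm_sub_le _ _).trans ?_
    rw [norm_char, norm_one]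
    norm_num
  calc _ ≤ (2 : ℝ) * 3 := mul_le_mul h0 h1 (norm_nonneg _) (by norm_num)
    _ ≤ 8 * ρ := by linarith

lemma sum_ph_sb_zero : ∑ y : B3, ph (0 : Fin 3 → ZMod q) y * (sb (gd y) : ℂ) = 0 := by
  rw [sum_ph_sb]
  simp

/-- the factor of a block -/
noncomputable def fac (c : Fin 3 → ZMod q) (z : ZMod 2) : ℂ :=
  ∑ y : B3, ph c y * (if z = 0 then 1 else (sb (gd y) : ℂ))

lemma RhoBound.fac_le {ρ : ℝ} (h : RhoBound q ρ) {c : Fin 3 → ZMod q} (hc : c ≠ 0) (z : ZMod 2) :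
    ‖fac c z‖ ≤ 8 * ρ := by
  unfold fac
  by_cases hz : z = 0
  · simp only [if_pos hz, mul_one]
    exact h.sum_ph_le hc
  · simp only [if_neg hz]
    exact h.sum_ph_sb_le c

lemma fac_zero (z : ZMod 2) : fac (0 : Fin 3 → ZMod q) z = if z = 0 then 8 else 0 := by
  unfold fac
  by_cases hz : z = 0
  · simp only [if_pos hz, mul_one]
    rw [sum_ph]
    simp
    norm_num
  · simp only [if_neg hz]
    exact sum_ph_sb_zero

variable {V : Type*} [Fintype V] [DecidableEq V]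

/-- the sums of the phases factor -/
lemma sum_prod_ph (c : V → Fin 3 → ZMod q) (s : V → ZMod 2) :
    ∑ x : V → B3, (∏ v, ph (c v) (x v)) * ((∏ v, (if s v = 0 then 1 else sb (gd (x v))) : ℝ) : ℂ) =
      ∏ v, fac (c v) (s v) := by
  unfold fac
  rw [Finset.prod_univ_sum]
  simp only [Fintype.piFinset_univ]
  refine Finset.sum_congr rfl fun x _ => ?_
  rw [Complex.ofReal_prod, ← Finset.prod_mul_distrib]
  refine Finset.prod_congr rfl fun v _ => ?_
  split_ifs <;> simp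

/-- the bound for one character and one set of equations -/
lemma RhoBound.prod_le {ρ : ℝ} (h : RhoBound q ρ) (c : V → Fin 3 → ZMod q) (s : V → ZMod 2) :
    ‖∏ v, fac (c v) (s v)‖ ≤ if ∀ v, s v ≠ 0 → c v ≠ 0 then
      8 ^ Fintype.card V * ρ ^ (univ.filter fun v => c v ≠ 0).card else 0 := by
  split_ifs with hs
  · rw [norm_prod]
    have h1 : ∀ v ∈ (univ : Finset V), ‖fac (c v) (s v)‖ ≤ 8 * (if c v ≠ 0 then ρ else 1) := by
      intro v _
      by_cases hc : c v = 0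
      · rw [if_neg (by simpa using hc), hc, fac_zero]
        split_ifs <;> norm_num
      · rw [if_pos hc]
        exact h.fac_le hc _
    refine (Finset.prod_le_prod (fun v _ => norm_nonneg _) h1).trans ?_
    rw [Finset.prod_mul_distrib, Finset.prod_const, Finset.card_univ, Finset.prod_ite,
      Finset.prod_const, Finset.prod_const_one, mul_one]
  · push Not at hs
    obtain ⟨v, hv, hcv⟩ := hs
    rw [Finset.prod_eq_zero (Finset.mem_univ v), norm_zero]
    rw [hcv, fac_zero, if_neg hv]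

end Pool.Agent.J4H24.SA
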