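import Mathlib

/-!
# Families of small sets that are closed under symmetric differences, and chains in groups
-/

namespace Pool.Agent.J4H24.SA

open Finset

/-- a family of sets with at most `g` elements which is closed under symmetric differences has at most
`4 ^ g` members -/
lemma group_card {ι : Type*} [DecidableEq ι] (G : Finset (Finset ι)) (g : ℕ)
    (hG : ∀ J ∈ G, ∀ J' ∈ G, symmDiff J J' ∈ G) (hg : ∀ J ∈ G, J.card ≤ g) :
    G.card ≤ 4 ^ g := by
  obtain ⟨W, hW⟩ : ∃ W, W = G.biUnion id := ⟨_, rfl⟩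
  have hmem : ∀ w, w ∈ W ↔ ∃ J ∈ G, w ∈ J := by
    intro w
    rw [hW]
    simp
  -- every element of the union lies in half of the sets
  have h1 : ∀ w ∈ W, 2 * (G.filter fun J => w ∈ J).card = G.card := by
    intro w hw
    obtain ⟨J0, hJ0, hw0⟩ := (hmem w).mp hw
    have h2 : (G.filter fun J => w ∈ J).card = (G.filter fun J => w ∉ J).card := by
      refine Finset.card_bij' (fun J _ => symmDiff J J0) (fun J _ => symmDiff J J0) ?_ ?_ ?_ ?_
      · intro J hJ
        rw [Finset.mem_filter] at hJ ⊢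
        refine ⟨hG _ hJ.1 _ hJ0, ?_⟩
        rw [Finset.mem_symmDiff]
        tauto
      · intro J hJ
        rw [Finset.mem_filter] at hJ ⊢
        refine ⟨hG _ hJ.1 _ hJ0, ?_⟩
        rw [Finset.mem_symmDiff]
        tauto
      · intro J _
        exact symmDiff_symmDiff_cancel_right J0 J
      · intro J _
        exact symmDiff_symmDiff_cancel_right J0 J
    have h3 := Finset.card_filter_add_card_filter_not (s := G) (p := fun J => w ∈ J)
    omega
  have h2 : ∑ J ∈ G, J.card = ∑ w ∈ W, (G.filter fun J => w ∈ J).card := by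
    simp_rw [Finset.card_eq_sum_ones, Finset.sum_filter]
    rw [Finset.sum_comm]
    refine Finset.sum_congr rfl fun J hJ => ?_
    rw [← Finset.sum_filter]
    refine Finset.sum_congr ?_ fun _ _ => rfl
    ext w
    rw [Finset.mem_filter]
    constructor
    · intro hw
      exact ⟨(hmem w).mpr ⟨J, hJ, hw⟩, hw⟩
    · exact fun hw => hw.2
  have h3 : 2 * ∑ J ∈ G, J.card = W.card * G.card := by
    rw [h2, Finset.mul_sum, Finset.sum_congr rfl h1, Finset.sum_const, smul_eq_mul]
  have h4 : ∑ J ∈ G, J.card ≤ G.card * g := by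
    refine (Finset.sum_le_card_nsmul _ _ g hg).trans ?_
    rw [smul_eq_mul]
  rcases Nat.eq_zero_or_pos G.card with h0 | hpos
  · rw [h0]
    exact Nat.zero_le _
  have h5 : W.card ≤ 2 * g := by
    have h6 : W.card * G.card ≤ (2 * g) * G.card := by
      rw [← h3]
      calc 2 * ∑ J ∈ G, J.card ≤ 2 * (G.card * g) := Nat.mul_le_mul_left _ h4
        _ = (2 * g) * G.card := by ring
    exact Nat.le_of_mul_le_mul_right h6 hpos
  have h6 : G ⊆ W.powerset := by
    intro J hJ
    rw [Finset.mem_powerset]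
    intro w hw
    exact (hmem w).mpr ⟨J, hJ, hw⟩
  calc G.card ≤ W.powerset.card := Finset.card_le_card h6
    _ = 2 ^ W.card := Finset.card_powerset _
    _ ≤ 2 ^ (2 * g) := Nat.pow_le_pow_right (by norm_num) h5
    _ = 4 ^ g := by rw [pow_mul]; norm_num

/-- a long chain of elements each of which has a new coordinate makes the average of
`ρ ^ (number of nonzero coordinates)` small -/
lemma chain_bound {H V R : Type*} [AddCommGroup H] [Fintype H] [AddCommGroup R] [DecidableEq R]
    (c : H →+ (V → R)) {ρ : ℝ} (h0 : 0 ≤ ρ) (h1 : ρ ≤ 1) : ∀ (t : ℕ) (hs : Fin t → H)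
    (is : Fin t → V), (∀ j, c (hs j) (is j) ≠ 0) → (∀ l j, l < j → c (hs l) (is j) = 0) →
    ∑ a : H, ∏ j, (if c a (is j) = 0 then 1 else ρ) ≤ Fintype.card H * ((1 + ρ) / 2) ^ t
  | 0, hs, is, _, _ => by simp
  | t + 1, hs, is, ha, hb => by
    have ih := chain_bound c h0 h1 t (fun j => hs j.succ) (fun j => is j.succ)
      (fun j => ha j.succ) (fun l j hlj => hb l.succ j.succ (Fin.succ_lt_succ_iff.mpr hlj))
    have hshift : ∑ a : H, ∏ j, (if c a (is j) = 0 then (1 : ℝ) else ρ) =
        ∑ a : H, ∏ j, (if c (a + hs 0) (is j) = 0 then (1 : ℝ) else ρ) :=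
      (Equiv.sum_comp (Equiv.addRight (hs 0))
        (fun a => ∏ j, (if c a (is j) = 0 then (1 : ℝ) else ρ))).symm
    have hrest : ∀ a : H, ∏ j : Fin t, (if c (a + hs 0) (is j.succ) = 0 then (1 : ℝ) else ρ) =
        ∏ j : Fin t, (if c a (is j.succ) = 0 then (1 : ℝ) else ρ) := by
      intro a
      refine Finset.prod_congr rfl fun j _ => ?_
      rw [map_add, Pi.add_apply, hb 0 j.succ (Fin.succ_pos j), add_zero]
    have hpos : ∀ a : H, 0 ≤ ∏ j : Fin t, (if c a (is j.succ) = 0 then (1 : ℝ) else ρ) := by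
      intro a
      refine Finset.prod_nonneg fun j _ => ?_
      split_ifs
      · norm_num
      · exact h0
    have h2 : 2 * ∑ a : H, ∏ j, (if c a (is j) = 0 then (1 : ℝ) else ρ) ≤
        (1 + ρ) * ∑ a : H, ∏ j : Fin t, (if c a (is j.succ) = 0 then (1 : ℝ) else ρ) := by
      have h3 : 2 * ∑ a : H, ∏ j, (if c a (is j) = 0 then (1 : ℝ) else ρ) =
          ∑ a : H, ((∏ j, (if c a (is j) = 0 then (1 : ℝ) else ρ)) +
            ∏ j, (if c (a + hs 0) (is j) = 0 then (1 : ℝ) else ρ)) := by
        rw [Finset.sum_add_distrib, ← hshift]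
        ring
      rw [h3, Finset.mul_sum]
      refine Finset.sum_le_sum fun a _ => ?_
      rw [Fin.prod_univ_succ, Fin.prod_univ_succ, hrest, ← add_mul]
      refine mul_le_mul_of_nonneg_right ?_ (hpos a)
      by_cases h4 : c a (is 0) = 0
      · rw [if_pos h4, if_neg]
        rw [map_add, Pi.add_apply, h4, zero_add]
        exact ha 0
      · rw [if_neg h4]
        split_ifs <;> linarith
    have h3 : (Fintype.card H : ℝ) * ((1 + ρ) / 2) ^ (t + 1) =
        (1 + ρ) / 2 * (Fintype.card H * ((1 + ρ) / 2) ^ t) := by ring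
    rw [h3]
    have h4 : (1 + ρ) / 2 * ∑ a : H, ∏ j : Fin t, (if c a (is j.succ) = 0 then (1 : ℝ) else ρ) ≤
        (1 + ρ) / 2 * (Fintype.card H * ((1 + ρ) / 2) ^ t) :=
      mul_le_mul_of_nonneg_left ih (by linarith)
    linarith

/-- the coordinates at which `a` is not zero -/
def cs {H V R : Type*} [AddCommGroup H] [AddCommGroup R] [DecidableEq R] [Fintype V]
    (c : H →+ (V → R)) (a : H) : Finset V := univ.filter fun v => c a v ≠ 0

lemma mem_cs {H V R : Type*} [AddCommGroup H] [AddCommGroup R] [DecidableEq R] [Fintype V]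
    {c : H →+ (V → R)} {a : H} {v : V} : v ∈ cs c a ↔ c a v ≠ 0 := by
  simp [cs]

/-- either there is a long chain, or the elements of small support live on few coordinates -/
lemma greedy {H V R : Type*} [AddCommGroup H] [AddCommGroup R] [DecidableEq R]
    [Fintype V] [DecidableEq V] (c : H →+ (V → R)) (s : ℕ) : ∀ (t : ℕ) (U0 : Finset V),
    (∃ (hs : Fin t → H) (is : Fin t → V), (∀ j, c (hs j) (is j) ≠ 0) ∧
      (∀ l j, l < j → c (hs l) (is j) = 0) ∧ ∀ j, is j ∉ U0) ∨
    ∃ U : Finset V, U0 ⊆ U ∧ U.card ≤ U0.card + t * s ∧ ∀ a, (cs c a).card ≤ s → cs c a ⊆ U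
  | 0, U0 => Or.inl ⟨Fin.elim0, Fin.elim0, fun j => j.elim0, fun l => l.elim0, fun j => j.elim0⟩
  | t + 1, U0 => by
    by_cases h : ∀ a, (cs c a).card ≤ s → cs c a ⊆ U0
    · exact Or.inr ⟨U0, subset_refl _, Nat.le_add_right _ _, h⟩
    · push Not at h
      obtain ⟨a, ha, hsub⟩ := h
      obtain ⟨v, hv, hvU⟩ := Finset.not_subset.mp hsub
      rcases greedy c s t (U0 ∪ cs c a) with ⟨hs, is, h1, h2, h3⟩ | ⟨U, h1, h2, h3⟩
      · left
        refine ⟨Fin.cons a hs, Fin.cons v is, ?_, ?_, ?_⟩
        · intro j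
          refine Fin.cases ?_ (fun j => ?_) j
          · rw [Fin.cons_zero, Fin.cons_zero]
            exact mem_cs.mp hv
          · rw [Fin.cons_succ, Fin.cons_succ]
            exact h1 j
        · intro l j hlj
          obtain ⟨j, rfl⟩ := Fin.exists_succ_eq.mpr (show j ≠ 0 from fun hj => by
            rw [hj] at hlj
            exact absurd hlj (Fin.not_lt_zero l))
          refine Fin.cases (motive := fun l => l < j.succ →
            c (Fin.cons (α := fun _ => H) a hs l) (Fin.cons (α := fun _ => V) v is j.succ) = 0)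
            ?_ (fun l => ?_) l hlj
          · intro _
            rw [Fin.cons_zero, Fin.cons_succ]
            by_contra hne
            exact h3 j (Finset.mem_union_right _ (mem_cs.mpr hne))
          · intro hlj
            rw [Fin.cons_succ, Fin.cons_succ]
            exact h2 l j (Fin.succ_lt_succ_iff.mp hlj)
        · intro j
          refine Fin.cases ?_ (fun j => ?_) j
          · rw [Fin.cons_zero]
            exact hvU
          · rw [Fin.cons_succ]
            exact fun hc => h3 j (Finset.mem_union_left _ hc)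
      · right
        refine ⟨U, Finset.subset_union_left.trans h1, ?_, h3⟩
        have h4 := Finset.card_union_le U0 (cs c a)
        have h5 : (t + 1) * s = t * s + s := by ring
        omega

/-- a long chain makes the average of `ρ ^ (size of the support)` small -/
lemma chain_supp {H V R : Type*} [AddCommGroup H] [Fintype H] [AddCommGroup R] [DecidableEq R]
    [Fintype V] [DecidableEq V]
    (c : H →+ (V → R)) {ρ : ℝ} (h0 : 0 ≤ ρ) (h1 : ρ ≤ 1) {t : ℕ} (hs : Fin t → H)
    (is : Fin t → V) (ha : ∀ j, c (hs j) (is j) ≠ 0) (hb : ∀ l j, l < j → c (hs l) (is j) = 0) :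
    ∑ a : H, ρ ^ (cs c a).card ≤ Fintype.card H * ((1 + ρ) / 2) ^ t := by
  refine le_trans (Finset.sum_le_sum fun a _ => ?_) (chain_bound c h0 h1 t hs is ha hb)
  have hinj : Function.Injective is := by
    intro l j hlj
    rcases lt_trichotomy l j with h | h | h
    · exact absurd (hb l j h) (by rw [← hlj]; exact ha l)
    · exact h
    · exact absurd (hb j l h) (by rw [hlj]; exact ha j)
  have h2 : ∏ j, (if c a (is j) = 0 then (1 : ℝ) else ρ) =
      ρ ^ (univ.filter fun j => c a (is j) ≠ 0).card := by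
    rw [Finset.prod_ite]
    simp
  rw [h2]
  refine pow_le_pow_of_le_one h0 h1 ?_
  refine Finset.card_le_card_of_injOn is ?_ hinj.injOn
  intro j hj
  rw [Finset.mem_coe, Finset.mem_filter] at hj
  rw [Finset.mem_coe, mem_cs]
  exact hj.2

end Pool.Agent.J4H24.SA
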